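import Pool.Agent.KCV.PT
import Pool.Agent.KMR.NP

/-! Circuit satisfiability is in NP. -/

namespace Pool.Agent.KCV

open Finset Pool.Agent.PolyTime Pool.Agent.KE Pool.Agent.NegLim Pool.Agent.NegLim.NPL
open Pool.Agent.KMQ (toNat_ne getD_mapRange)
open Pool.Agent.KMR (pf_x pf_s pd_s polyTime_of_pd)

/-- a letter of the circuit of a pair, as a number -/
noncomputable def ltX (y : List Bool) (q : ℕ) : ℕ := if q < plen y then (xbit y q).toNat else 0

/-- a pointer of the circuit of a pair -/
noncomputable def ptrX (y : List Bool) (p : ℕ) : ℕ := ∑ k ∈ range (len (plen y)), pw (plen y) k * ltX y (p + k)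

/-- the value of a wire according to the certificate -/
noncomputable def wireX (y : List Bool) (i q : ℕ) : ℕ :=
  if q < i then (sbit y q).toNat else (sbit y (plen y + 1 + q)).toNat

/-- the verifier -/
def VerC (y : List Bool) : Prop :=
  (∀ i < plen y + 1, (sbit y i).toNat + wireX y i (ptrX y (2 * len (plen y) * i)) *
    wireX y i (ptrX y (2 * len (plen y) * i + len (plen y))) = 1) ∧
    sbit y (plen y / (2 * len (plen y)) - 1) = true

theorem pd_VerC : PD (fun (y : List Bool) (_ : Unit) => VerC y) := by
  have hx : ∀ (β : Type) [Ctx β] (q : List Bool → β → ℕ), PF q → PF (fun y a => ltX y (q y a)) := by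
    intro β _ q hq
    unfold ltX
    exact PF.ite (P := fun y a => q y a < plen y) (PD.lt hq pf_plen) (pf_x hq) (PF.const 0)
  have hp : ∀ (β : Type) [Ctx β] (q : List Bool → β → ℕ), PF q → PF (fun y a => ptrX y (q y a)) := by
    intro β _ q hq
    unfold ptrX
    exact PF.sum (F := fun (y : List Bool) (t : β × ℕ) => pw (plen y) t.2 * ltX y (q y t.1 + t.2))
      (pf_len pf_plen) ((pf_pw pf_plen PF.snd).mul (hx _ _ (hq.fst.add PF.snd)))
  have hw : ∀ q : List Bool → Unit × ℕ → ℕ, PF q →
      PF (fun (y : List Bool) (t : Unit × ℕ) => wireX y t.2 (q y t)) := by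
    intro q hq
    unfold wireX
    exact PF.ite (P := fun (y : List Bool) (t : Unit × ℕ) => q y t < t.2) (PD.lt hq PF.snd)
      (pf_s hq) (pf_s ((pf_plen.add (PF.const 1)).add hq))
  have hL : PF (fun (y : List Bool) (_ : Unit × ℕ) => len (plen y)) := pf_len pf_plen
  have hL' : PF (fun (y : List Bool) (_ : Unit) => len (plen y)) := pf_len pf_plen
  refine PD.and ?_ (pd_s ((pf_plen.div ((PF.const 2).mul hL')).sub (PF.const 1)))
  refine PD.forall_lt (pf_plen.add (PF.const 1)) (P := fun (y : List Bool) (t : Unit × ℕ) =>
    (sbit y t.2).toNat + wireX y t.2 (ptrX y (2 * len (plen y) * t.2)) *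
    wireX y t.2 (ptrX y (2 * len (plen y) * t.2 + len (plen y))) = 1) ?_
  exact PD.eq ((pf_s PF.snd).add ((hw _ (hp _ _ (((PF.const 2).mul hL).mul PF.snd))).mul
    (hw _ (hp _ _ ((((PF.const 2).mul hL).mul PF.snd).add hL))))) (PF.const 1)

theorem ptrX_pair (x w : List Bool) (p : ℕ) : ptrX (pairWord x w) p = ptr x p := by
  rw [← ptrN_eq (w := x) (fun q _ => rfl)]
  unfold ptrX ptrN
  rw [plen_pair]
  refine Finset.sum_congr rfl fun k _ => ?_
  unfold ltX ltN
  rw [plen_pair]
  by_cases h : p + k < x.length
  · rw [if_pos h, if_pos h, xbit_pair _ _ _ h]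
  · rw [if_neg h, if_neg h]

theorem verC_pair (x w : List Bool) : VerC (pairWord x w) ↔
    (∀ i < x.length + 1, w.getD i false =
      !((if ptr x (2 * len x.length * i) < i then w.getD (ptr x (2 * len x.length * i)) false
        else w.getD (x.length + 1 + ptr x (2 * len x.length * i)) false) &&
        (if ptr x (2 * len x.length * i + len x.length) < i then
          w.getD (ptr x (2 * len x.length * i + len x.length)) false
        else w.getD (x.length + 1 + ptr x (2 * len x.length * i + len x.length)) false))) ∧
      w.getD (gates x - 1) false = true := by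
  have hwire : ∀ i q, wireX (pairWord x w) i q =
      (if q < i then w.getD q false else w.getD (x.length + 1 + q) false).toNat := by
    intro i q
    unfold wireX
    rw [plen_pair, sbit_pair, sbit_pair]
    split_ifs <;> rfl
  unfold VerC
  rw [plen_pair, sbit_pair]
  refine and_congr (forall_congr' fun i => forall_congr' fun _ => ?_) Iff.rfl
  rw [sbit_pair, ptrX_pair, ptrX_pair, hwire, hwire]
  generalize (if ptr x (2 * len x.length * i) < i then w.getD (ptr x (2 * len x.length * i)) false
    else w.getD (x.length + 1 + ptr x (2 * len x.length * i)) false) = b1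
  generalize (if ptr x (2 * len x.length * i + len x.length) < i then
    w.getD (ptr x (2 * len x.length * i + len x.length)) false
    else w.getD (x.length + 1 + ptr x (2 * len x.length * i + len x.length)) false) = b2
  cases w.getD i false <;> cases b1 <;> cases b2 <;> decide

theorem ptr_le (y : List Bool) (p : ℕ) : ptr y p ≤ 2 * y.length + 1 := by
  have h := ptr_lt y p
  have h1 : 2 ^ len y.length ≤ 2 * y.length + 2 := by
    unfold len
    by_cases h0 : y.length = 0
    · rw [h0]
      norm_num
    · rw [pow_succ]
      have := Nat.pow_log_le_self 2 h0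
      omega
  omega

open Classical in
/-- **Circuit satisfiability is in NP.** -/
theorem inNP_Csat : InNP (fun y => decide (Csat y)) := by
  refine ⟨fun y => decide (VerC y), 6, polyTime_of_pd pd_VerC, fun x => ?_⟩
  rw [decide_eq_true_iff]
  have hgl : gates x - 1 ≤ x.length := le_trans (Nat.sub_le _ _) (Nat.div_le_self _ _)
  unfold Csat
  constructor
  · rintro ⟨a, ha⟩
    obtain ⟨F, hF⟩ : ∃ F : ℕ → Bool, F = fun p => if p < x.length + 1 then val x a p else
      a (p - (x.length + 1)) := ⟨_, rfl⟩
    have hg : ∀ k < 3 * x.length + 3, ((List.range (3 * x.length + 3)).map F).getD k false = F k :=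
      fun k hk => getD_mapRange _ F hk
    have hF1 : ∀ k < x.length + 1, F k = val x a k := fun k hk => by
      rw [hF]; simp only; rw [if_pos hk]
    have hF2 : ∀ k, F (x.length + 1 + k) = a k := fun k => by
      rw [hF]; simp only; rw [if_neg (by omega), Nat.add_sub_cancel_left]
    refine ⟨(List.range (3 * x.length + 3)).map F, ?_, ?_⟩
    · rw [List.length_map, List.length_range]
      rcases Nat.lt_or_ge x.length 2 with h | h
      · interval_cases x.length <;> norm_num
      · have : 3 * x.length ≤ x.length ^ 6 := by
          calc 3 * x.length ≤ 2 ^ 5 * x.length := Nat.mul_le_mul_right _ (by norm_num)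
            _ ≤ x.length ^ 5 * x.length := Nat.mul_le_mul_right _ (Nat.pow_le_pow_left h 5)
            _ = x.length ^ 6 := by ring
        omega
    · rw [decide_eq_true_iff, verC_pair]
      refine ⟨fun i hi => ?_, ?_⟩
      · have hp1 := ptr_le x (2 * len x.length * i)
        have hp2 := ptr_le x (2 * len x.length * i + len x.length)
        rw [hg i (by omega), hF1 i hi, val]
        have e : ∀ q, q ≤ 2 * x.length + 1 → (if _h : q < i then val x a q else a q) =
            if q < i then ((List.range (3 * x.length + 3)).map F).getD q false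
            else ((List.range (3 * x.length + 3)).map F).getD (x.length + 1 + q) false := by
          intro q hq
          by_cases h : q < i
          · rw [dif_pos h, if_pos h, hg q (by omega), hF1 q (by omega)]
          · rw [dif_neg h, if_neg h, hg _ (by omega), hF2]
        rw [e _ hp1, e _ hp2]
      · rw [hg _ (by omega), hF1 _ (by omega)]
        exact ha
  · rintro ⟨w, _, hw⟩
    rw [decide_eq_true_iff, verC_pair] at hw
    obtain ⟨hw1, hw2⟩ := hw
    refine ⟨fun q => w.getD (x.length + 1 + q) false, ?_⟩
    have key : ∀ i, i < x.length + 1 →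
        val x (fun q => w.getD (x.length + 1 + q) false) i = w.getD i false := by
      intro i
      induction i using Nat.strong_induction_on with
      | _ i ih =>
        intro hi
        rw [hw1 i hi, val]
        have e : ∀ q, (if _h : q < i then val x (fun q => w.getD (x.length + 1 + q) false) q
            else w.getD (x.length + 1 + q) false) =
            if q < i then w.getD q false else w.getD (x.length + 1 + q) false := by
          intro q
          by_cases h : q < i
          · rw [dif_pos h, if_pos h, ih q h (by omega)]
          · rw [dif_neg h, if_neg h]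
        rw [e, e]
    unfold out
    rw [key _ (by omega)]
    exact hw2

end Pool.Agent.KCV
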