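import Pool.Agent.KCV.Bits
import Pool.Agent.KMQ.ItP
import Pool.Agent.Lib.PolyTime.PB

/-! The circuit value problem is in P. -/

namespace Pool.Agent.KCV

open Finset Pool.Agent.PolyTime Pool.Agent.KE
open Pool.Agent.KMQ (toNat_ne getD_mapRange)

theorem log_eq_card (n : ℕ) :
    Nat.log 2 n = ((range n).filter (fun e => ∃ P < n + 1, P = 2 ^ (e + 1))).card := by
  classical
  rcases Nat.eq_zero_or_pos n with rfl | hn
  · simp
  · have : (range n).filter (fun e => ∃ P < n + 1, P = 2 ^ (e + 1)) = range (Nat.log 2 n) := by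
      ext e
      rw [mem_filter, mem_range, mem_range]
      constructor
      · rintro ⟨_, P, hP, rfl⟩
        exact (Nat.le_log_iff_pow_le (by omega) (by omega)).2 (by omega)
      · intro h
        have h1 : 2 ^ (e + 1) ≤ n := (Nat.le_log_iff_pow_le (by omega) (by omega)).1 h
        refine ⟨?_, _, Nat.lt_succ_of_le h1, rfl⟩
        have : e + 1 < 2 ^ (e + 1) := Nat.lt_two_pow_self
        omega
    rw [this, card_range]

/-- the power of two, if it is at most `n` -/
def pw (n k : ℕ) : ℕ := ∑ P ∈ range (n + 1), if P = 2 ^ k then P else 0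

theorem pw_eq {n k : ℕ} (h : 2 ^ k ≤ n) : pw n k = 2 ^ k := by
  unfold pw
  rw [Finset.sum_ite_eq' (range (n + 1)) (2 ^ k) (fun P => P), if_pos (mem_range.2 (by omega))]

/-- a letter of the first `n` letters, as a number -/
def ltN (w : List Bool) (n q : ℕ) : ℕ := if q < n then (w.getD q false).toNat else 0

/-- a pointer, read from the first `n` letters -/
def ptrN (w : List Bool) (n p : ℕ) : ℕ := ∑ k ∈ range (len n), pw n k * ltN w n (p + k)

theorem ptrN_eq {w y : List Bool} (h : ∀ q < y.length, w.getD q false = y.getD q false) (p : ℕ) :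
    ptrN w y.length p = ptr y p := by
  have h1 : ∀ q, ltN w y.length q = (lt y q).toNat := by
    intro q
    unfold ltN lt
    split_ifs with hq
    · rw [h q hq]
    · rw [List.getD_eq_default _ _ (by omega)]
      rfl
  unfold ptrN ptr
  refine Finset.sum_congr rfl fun k hk => ?_
  rw [h1]
  by_cases h0 : y.length = 0
  · have : lt y (p + k) = false := by
      unfold lt
      rw [List.getD_eq_default _ _ (by omega)]
    rw [this]
    simp
  · have h2 : k ≤ Nat.log 2 y.length := by
      have := mem_range.1 hk
      unfold len at this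
      omega
    rw [pw_eq ((Nat.le_log_iff_pow_le (by omega) h0).1 h2)]

section
variable {α : Type} [Ctx α]

theorem pf_len {K : List Bool → α → ℕ} (hK : PF K) : PF (fun y a => len (K y a)) := by
  classical
  have hP : PD (fun x (q : α × ℕ) => ∃ P < K x q.1 + 1, P = 2 ^ (q.2 + 1)) :=
    PD.exists_lt (hK.fst.add (PF.const 1)) (P := fun x (r : (α × ℕ) × ℕ) => r.2 = 2 ^ (r.1.2 + 1))
      (PD.eq_pow PF.snd (PF.snd.fst.add (PF.const 1)))
  refine ((PF.count hK hP).add (PF.const 1)).congr fun x a => ?_
  unfold len
  rw [log_eq_card]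

theorem pf_pw {n k : List Bool → α → ℕ} (hn : PF n) (hk : PF k) : PF (fun y a => pw (n y a) (k y a)) := by
  unfold pw
  exact PF.sum (F := fun (y : List Bool) (t : α × ℕ) => if t.2 = 2 ^ k y t.1 then t.2 else 0)
    (hn.add (PF.const 1)) (PF.ite (P := fun (y : List Bool) (t : α × ℕ) => t.2 = 2 ^ k y t.1)
      (PD.eq_pow PF.snd hk.fst) PF.snd (PF.const 0))

theorem pf_ltN {n q : List Bool → α → ℕ} (hn : PF n) (hq : PF q) :
    PF (fun y a => ltN y (n y a) (q y a)) := by
  unfold ltN
  exact PF.ite (P := fun y a => q y a < n y a) (PD.lt hq hn) hq.inp (PF.const 0)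

theorem pf_ptrN {n p : List Bool → α → ℕ} (hn : PF n) (hp : PF p) :
    PF (fun y a => ptrN y (n y a) (p y a)) := by
  unfold ptrN
  exact PF.sum (F := fun (y : List Bool) (t : α × ℕ) => pw (n y t.1) t.2 * ltN y (n y t.1) (p y t.1 + t.2))
    (pf_len hn) ((pf_pw hn.fst PF.snd).mul (pf_ltN hn.fst (hp.fst.add PF.snd)))

end

/-! ### The iteration -/

/-- the length of the circuit stored in the word -/
def hl (w : List Bool) : ℕ := w.length / 2

/-- the value of a wire of the gate `i`; the values of the gates are stored behind the circuit -/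
def wireN (w : List Bool) (i q : ℕ) : ℕ := if q < i then (w.getD (hl w + q) false).toNat else 1

/-- the number that is the new letter `p` -/
def stN (w : List Bool) (p : ℕ) : ℕ :=
  if p < hl w then (w.getD p false).toNat
  else 1 - wireN w (p - hl w) (ptrN w (hl w) (2 * len (hl w) * (p - hl w))) *
    wireN w (p - hl w) (ptrN w (hl w) (2 * len (hl w) * (p - hl w) + len (hl w)))

/-- one step -/
def stW (w : List Bool) : List Bool := (List.range w.length).map fun p => decide (stN w p ≠ 0)

/-- the first word -/
def inW (y : List Bool) : List Bool :=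
  (List.range (2 * y.length + 1)).map fun p => decide ((y.getD p false).toNat ≠ 0)

/-- the output word -/
def ouW (w : List Bool) : List Bool :=
  (List.range 1).map fun _ => decide ((w.getD (hl w + (hl w / (2 * len (hl w)) - 1)) false).toNat ≠ 0)

theorem pf_hl {α : Type} [Ctx α] : PF (fun (w : List Bool) (_ : α) => hl w) := PF.len.div (PF.const 2)

theorem pb_st : PFBits stW := by
  refine ⟨fun y => y.length, stN, PF.len, ?_, fun x => rfl⟩
  have hi : PF (fun (w : List Bool) (t : Unit × ℕ) => t.2 - hl w) := PF.snd.sub pf_hl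
  have hL : PF (fun (w : List Bool) (_ : Unit × ℕ) => len (hl w)) := pf_len pf_hl
  have hw : ∀ q : List Bool → Unit × ℕ → ℕ, PF q →
      PF (fun (w : List Bool) (t : Unit × ℕ) => wireN w (t.2 - hl w) (q w t)) := by
    intro q hq
    unfold wireN
    exact PF.ite (P := fun (w : List Bool) (t : Unit × ℕ) => q w t < t.2 - hl w) (PD.lt hq hi)
      ((pf_hl.add hq).inp) (PF.const 1)
  unfold stN
  refine PF.ite (P := fun (w : List Bool) (t : Unit × ℕ) => t.2 < hl w) (PD.lt PF.snd pf_hl) PF.snd.inp ?_
  exact (PF.const 1).sub ((hw _ (pf_ptrN pf_hl (((PF.const 2).mul hL).mul hi))).mul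
    (hw _ (pf_ptrN pf_hl ((((PF.const 2).mul hL).mul hi).add hL))))

theorem pb_in : PFBits inW :=
  ⟨fun y => 2 * y.length + 1, fun y p => (y.getD p false).toNat, ((PF.const 2).mul PF.len).add (PF.const 1),
    PF.snd.inp, fun _ => rfl⟩

theorem pb_ou : PFBits ouW :=
  ⟨fun _ => 1, fun w _ => (w.getD (hl w + (hl w / (2 * len (hl w)) - 1)) false).toNat, PF.const 1,
    (pf_hl.add ((pf_hl.div ((PF.const 2).mul (pf_len pf_hl))).sub (PF.const 1))).inp, fun _ => rfl⟩

theorem length_stW (w : List Bool) : (stW w).length = w.length := by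
  unfold stW
  simp

/-- the word contains the circuit `y` and the values of the first `t` gates -/
def Inv (y : List Bool) (t : ℕ) (w : List Bool) : Prop :=
  w.length = 2 * y.length + 1 ∧ (∀ p < y.length, w.getD p false = y.getD p false) ∧
    ∀ i < t, i ≤ y.length → w.getD (y.length + i) false = val y (fun _ => true) i

theorem inv_in (y : List Bool) : Inv y 0 (inW y) := by
  refine ⟨by unfold inW; simp, fun p hp => ?_, fun i hi => absurd hi (by omega)⟩
  unfold inW
  rw [getD_mapRange _ _ (by omega), toNat_ne]

theorem inv_st {y : List Bool} {t : ℕ} {w : List Bool} (h : Inv y t w) : Inv y (t + 1) (stW w) := by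
  obtain ⟨h1, h2, h3⟩ := h
  have hn : hl w = y.length := by
    unfold hl
    omega
  refine ⟨by rw [length_stW, h1], fun p hp => ?_, fun i hi hiy => ?_⟩
  · unfold stW
    rw [getD_mapRange _ _ (by rw [h1]; omega)]
    unfold stN
    rw [hn, if_pos hp, toNat_ne]
    exact h2 p hp
  · unfold stW
    rw [getD_mapRange _ _ (by rw [h1]; omega)]
    unfold stN
    rw [hn, if_neg (by omega), Nat.add_sub_cancel_left, ptrN_eq h2, ptrN_eq h2, val]
    have hw : ∀ q, wireN w i q = (if _h : q < i then val y (fun _ => true) q else true).toNat := by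
      intro q
      unfold wireN
      rw [hn]
      by_cases hq : q < i
      · rw [if_pos hq, dif_pos hq, h3 q (by omega) (by omega)]
      · rw [if_neg hq, dif_neg hq]
        rfl
    rw [hw, hw]
    generalize (if _h : ptr y (2 * len y.length * i) < i then
      val y (fun _ => true) (ptr y (2 * len y.length * i)) else true) = b1
    generalize (if _h : ptr y (2 * len y.length * i + len y.length) < i then
      val y (fun _ => true) (ptr y (2 * len y.length * i + len y.length)) else true) = b2
    cases b1 <;> cases b2 <;> rfl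

theorem inv_it (y : List Bool) (t : ℕ) : Inv y t (stW^[t] (inW y)) := by
  induction t with
  | zero => exact inv_in y
  | succ t ih =>
    rw [Function.iterate_succ_apply']
    exact inv_st ih

open Classical in
/-- **The circuit value problem is in P.** -/
theorem inP_Cvp : Pool.Agent.KNL.InP Cvp := by
  have h1 : PC (fun w => stW^[w.length] w) :=
    PFBits.iterate pb_st (fun x => (length_stW x).le) PF.len
  have h2 : PC (fun y => ouW (stW^[(inW y).length] (inW y))) := pb_ou.pc.comp (h1.comp pb_in.pc)
  refine ⟨fun y => decide (Cvp y), fun w => by simp, (h2.congr fun y => ?_).polyTime⟩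
  have hl0 : (inW y).length = 2 * y.length + 1 := (inv_in y).1
  rw [hl0]
  obtain ⟨w1, _, w3⟩ := inv_it y (2 * y.length + 1)
  obtain ⟨w, hw⟩ : ∃ w, w = stW^[2 * y.length + 1] (inW y) := ⟨_, rfl⟩
  rw [← hw] at w1 w3 ⊢
  have hn : hl w = y.length := by
    unfold hl
    omega
  have hg : y.length / (2 * len y.length) - 1 ≤ y.length :=
    le_trans (Nat.sub_le _ _) (Nat.div_le_self _ _)
  have h3 : ouW w = [decide ((w.getD (hl w + (hl w / (2 * len (hl w)) - 1)) false).toNat ≠ 0)] := rfl
  rw [h3, hn, toNat_ne, w3 _ (by omega) hg]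
  have h4 : Cvp y ↔ val y (fun _ => true) (y.length / (2 * len y.length) - 1) = true := Iff.rfl
  refine congrArg (fun b => [b]) ?_
  cases hv : val y (fun _ => true) (y.length / (2 * len y.length) - 1)
  · exact (decide_eq_false (fun h => by rw [h4, hv] at h; exact Bool.false_ne_true h)).symm
  · exact (decide_eq_true (h4.2 hv)).symm

end Pool.Agent.KCV
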