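import Pool.Agent.KCV.Defs
import Pool.Agent.KH.ShiftX

/-! Binary digits, and words with given pointers. -/

namespace Pool.Agent.KCV

open Finset Pool.Agent.KE Pool.Agent.KH

/-- the number with the digits `f` -/
def dig (t : ℕ) (f : ℕ → Bool) : ℕ := ∑ k ∈ range t, 2 ^ k * (f k).toNat

theorem dig_succ (t : ℕ) (f : ℕ → Bool) : dig (t + 1) f = 2 ^ t * (f t).toNat + dig t f := by
  unfold dig
  rw [sum_range_succ, add_comm]

theorem dig_lt (t : ℕ) (f : ℕ → Bool) : dig t f < 2 ^ t := by
  induction t with
  | zero => simp [dig]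
  | succ t ih =>
    rw [dig_succ, pow_succ]
    cases f t
    · simp only [Bool.toNat_false, mul_zero]; omega
    · simp only [Bool.toNat_true, mul_one]; omega

theorem testBit_dig {t k : ℕ} {f : ℕ → Bool} (h : k < t) : (dig t f).testBit k = f k := by
  induction t with
  | zero => omega
  | succ t ih =>
    rw [dig_succ, Nat.testBit_two_pow_mul_add _ (dig_lt t f)]
    split_ifs with h1
    · exact ih h1
    · obtain rfl : k = t := by omega
      rw [Nat.sub_self]
      cases f k <;> rfl

theorem testBit_dig' {t k : ℕ} {f : ℕ → Bool} : (dig t f).testBit k = (decide (k < t) && f k) := by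
  by_cases h : k < t
  · rw [testBit_dig h, decide_eq_true h, Bool.true_and]
  · rw [decide_eq_false h, Bool.false_and]
    exact Nat.testBit_lt_two_pow (lt_of_lt_of_le (dig_lt t f) (Nat.pow_le_pow_right (by norm_num) (by omega)))

theorem dig_congr {t : ℕ} {f g : ℕ → Bool} (h : ∀ k < t, f k = g k) : dig t f = dig t g := by
  unfold dig
  exact Finset.sum_congr rfl fun k hk => by rw [h k (mem_range.1 hk)]

theorem dig_testBit {t x : ℕ} (h : x < 2 ^ t) : dig t x.testBit = x := by
  refine Nat.eq_of_testBit_eq fun k => ?_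
  rw [testBit_dig']
  by_cases hk : k < t
  · rw [decide_eq_true hk, Bool.true_and]
  · rw [decide_eq_false hk, Bool.false_and]
    exact (Nat.testBit_lt_two_pow (lt_of_lt_of_le h (Nat.pow_le_pow_right (by norm_num) (by omega)))).symm

/-- a number with prescribed low digits above which there is a single one -/
theorem dig_data {t ℓ : ℕ} (h : t < ℓ) (f : ℕ → Bool) :
    dig ℓ (fun k => if k < t then f k else (2 ^ t).testBit k) = 2 ^ t + dig t f := by
  refine Nat.eq_of_testBit_eq fun k => ?_
  have h1 : 2 ^ t + dig t f = 2 ^ t * 1 + dig t f := by rw [mul_one]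
  rw [testBit_dig', h1, Nat.testBit_two_pow_mul_add _ (dig_lt t f)]
  by_cases hk : k < t
  · rw [if_pos hk, if_pos hk, testBit_dig hk, decide_eq_true (by omega), Bool.true_and]
  · rw [if_neg hk, if_neg hk, Nat.testBit_two_pow]
    by_cases h2 : t = k
    · subst h2
      rw [Nat.sub_self, decide_eq_true h, decide_eq_true rfl]
      rfl
    · have h3 : (1 : ℕ).testBit (k - t) = false := by
        refine Nat.testBit_lt_two_pow (lt_of_lt_of_le (show 1 < 2 ^ 1 by norm_num) ?_)
        exact Nat.pow_le_pow_right (by norm_num) (by omega)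
      rw [h3, decide_eq_false h2, Bool.and_false]

theorem len_pos (N : ℕ) : 1 ≤ len N := by unfold len; omega

theorem lt_two_len (N : ℕ) : N < 2 ^ len N := by
  unfold len
  exact Nat.lt_pow_succ_log_self (by norm_num) N

theorem ptr_eq (y : List Bool) (p : ℕ) : ptr y p = dig (len y.length) fun k => lt y (p + k) := rfl

theorem ptr_lt (y : List Bool) (p : ℕ) : ptr y p < 2 ^ len y.length := dig_lt _ _

/-- the digit `r` of two pointers -/
def bitP (ℓ : ℕ) (q : ℕ × ℕ) (r : ℕ) : Bool := if r < ℓ then q.1.testBit r else q.2.testBit (r - ℓ)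

/-- the word of length `N` with the pointers `P` -/
def word (N : ℕ) (P : ℕ → ℕ × ℕ) (p : Fin N) : Bool :=
  bitP (len N) (P ((p : ℕ) / (2 * len N))) ((p : ℕ) % (2 * len N))

theorem lt_ofFn {N : ℕ} (w : Fin N → Bool) {p : ℕ} (h : p < N) : lt (List.ofFn w) p = w ⟨p, h⟩ := by
  unfold lt
  rw [List.getD_eq_getElem _ _ (by simpa using h), List.getElem_ofFn]

theorem gate_lt {N i r : ℕ} (hi : i < N / (2 * len N)) (hr : r < 2 * len N) :
    2 * len N * i + r < N := by
  have h1 : (i + 1) * (2 * len N) ≤ N := by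
    calc (i + 1) * (2 * len N) ≤ N / (2 * len N) * (2 * len N) := Nat.mul_le_mul_right _ hi
      _ ≤ N := Nat.div_mul_le_self _ _
  calc 2 * len N * i + r < 2 * len N * i + 2 * len N := by omega
    _ = (i + 1) * (2 * len N) := by ring
    _ ≤ N := h1

theorem word_at {N : ℕ} {P : ℕ → ℕ × ℕ} {i r : ℕ} (hr : r < 2 * len N) (h : 2 * len N * i + r < N) :
    word N P ⟨2 * len N * i + r, h⟩ = bitP (len N) (P i) r := by
  unfold word
  simp only
  rw [Nat.mul_add_div (by omega), Nat.div_eq_of_lt hr, add_zero, Nat.mul_add_mod, Nat.mod_eq_of_lt hr]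

theorem gates_lt (N : ℕ) : N / (2 * len N) < 2 ^ len N - 1 := by
  have h1 := lt_two_len N
  have h2 := len_pos N
  have h3 : N / (2 * len N) ≤ N / 2 := Nat.div_le_div_left (by omega) (by norm_num)
  have h4 : 2 ≤ 2 ^ len N := by
    calc 2 = 2 ^ 1 := rfl
      _ ≤ 2 ^ len N := Nat.pow_le_pow_right (by norm_num) h2
  omega

/-- the value of a gate both of whose wires are gates -/
theorem val_eq {y : List Bool} {a : ℕ → Bool} {i p q : ℕ} (hp : ptr y (2 * len y.length * i) = p)
    (hq : ptr y (2 * len y.length * i + len y.length) = q) (h1 : p < i) (h2 : q < i) :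
    val y a i = !(val y a p && val y a q) := by
  rw [val]
  subst hp hq
  rw [dif_pos h1, dif_pos h2]

end Pool.Agent.KCV
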