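import Pool.Agent.KMR.Defs

/-! Straight line programs with NAND gates, as lists of the computed functions. -/

namespace Pool.Agent.KCV

open Pool.Agent.KE

/-- Boolean functions of `m` variables -/
abbrev BF (m : ℕ) : Type := (Fin m → Bool) → Bool

/-- the NAND of two functions -/
def nand {m : ℕ} (p q : BF m) : BF m := fun x => !(p x && q x)

/-- the functions that are available after the functions of `L` have been computed -/
def Av {m : ℕ} (L : List (BF m)) (f : BF m) : Prop :=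
  f ∈ L ∨ (∃ l, f = fun x => x l) ∨ ∃ b : Bool, f = fun _ => b

/-- straight line programs; the last function is the head of the list -/
inductive Slp {m : ℕ} : List (BF m) → Prop
  | nil : Slp []
  | cons {L : List (BF m)} {p q : BF m} : Slp L → Av L p → Av L q → Slp (nand p q :: L)

/-- `L'` extends `L` by at most `k` functions -/
def Ext {m : ℕ} (L L' : List (BF m)) (k : ℕ) : Prop :=
  Slp L' ∧ (∀ f, Av L f → Av L' f) ∧ L'.length ≤ L.length + k

/-- the function is computed by at most `G` gates -/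
def Cmp (m G : ℕ) (f : BF m) : Prop := ∃ L : List (BF m), Ext [] L G ∧ Av L f

section
variable {m : ℕ} {L L' L'' : List (BF m)} {k k' : ℕ} {p q : BF m}

theorem Ext.refl (h : Slp L) : Ext L L 0 := ⟨h, fun _ hf => hf, le_rfl⟩

theorem Ext.trans (h : Ext L L' k) (h' : Ext L' L'' k') : Ext L L'' (k + k') :=
  ⟨h'.1, fun f hf => h'.2.1 f (h.2.1 f hf), by have := h.2.2; have := h'.2.2; omega⟩

theorem Ext.mono (h : Ext L L' k) (hk : k ≤ k') : Ext L L' k' :=
  ⟨h.1, h.2.1, by have := h.2.2; omega⟩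

theorem av_const (L : List (BF m)) (b : Bool) : Av L fun _ => b := Or.inr (Or.inr ⟨b, rfl⟩)

theorem av_proj (L : List (BF m)) (l : Fin m) : Av L fun x => x l := Or.inr (Or.inl ⟨l, rfl⟩)

theorem ext_nand (h : Slp L) (hp : Av L p) (hq : Av L q) :
    ∃ L', Ext L L' 1 ∧ Av L' (nand p q) := by
  refine ⟨nand p q :: L, ⟨.cons h hp hq, ?_, by simp⟩, Or.inl (List.mem_cons_self ..)⟩
  rintro f (hf | hf)
  · exact Or.inl (List.mem_cons_of_mem _ hf)
  · exact Or.inr hf

theorem ext_not (h : Slp L) (hp : Av L p) : ∃ L', Ext L L' 1 ∧ Av L' (fun x => !p x) := by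
  obtain ⟨L', h1, h2⟩ := ext_nand h hp hp
  refine ⟨L', h1, ?_⟩
  convert h2 using 1
  funext x
  simp [nand]

theorem ext_and (h : Slp L) (hp : Av L p) (hq : Av L q) :
    ∃ L', Ext L L' 2 ∧ Av L' (fun x => p x && q x) := by
  obtain ⟨L1, h1, h2⟩ := ext_nand h hp hq
  obtain ⟨L2, h3, h4⟩ := ext_not h1.1 h2
  refine ⟨L2, h1.trans h3, ?_⟩
  convert h4 using 1
  funext x
  simp [nand]

theorem ext_xor (h : Slp L) (hp : Av L p) (hq : Av L q) :
    ∃ L', Ext L L' 4 ∧ Av L' (fun x => xor (p x) (q x)) := by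
  obtain ⟨L1, h1, h2⟩ := ext_nand h hp hq
  obtain ⟨L2, h3, h4⟩ := ext_nand h1.1 (h1.2.1 _ hp) h2
  obtain ⟨L3, h5, h6⟩ := ext_nand h3.1 (h3.2.1 _ (h1.2.1 _ hq)) (h3.2.1 _ h2)
  obtain ⟨L4, h7, h8⟩ := ext_nand h5.1 (h5.2.1 _ h4) h6
  refine ⟨L4, ((h1.trans h3).trans h5).trans h7, ?_⟩
  convert h8 using 1
  funext x
  simp only [nand]
  cases p x <;> cases q x <;> rfl

/-- adding up many functions -/
theorem ext_sum (h : Slp L) {κ : ℕ} (f : Fin κ → BF m) (hf : ∀ i, Av L (f i)) :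
    ∃ L', Ext L L' (4 * κ) ∧ Av L' (fun x => decide (∑ i, zb (f i x) = 1)) := by
  induction κ with
  | zero =>
    refine ⟨L, Ext.refl h, ?_⟩
    convert av_const L false using 1
    funext x
    simp
  | succ κ ih =>
    obtain ⟨L1, h1, h2⟩ := ih (fun i => f i.castSucc) (fun i => hf _)
    obtain ⟨L2, h3, h4⟩ := ext_xor h1.1 h2 (h1.2.1 _ (hf (Fin.last κ)))
    refine ⟨L2, (h1.trans h3).mono (by omega), ?_⟩
    convert h4 using 1
    funext x
    rw [Fin.sum_univ_castSucc]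
    generalize ∑ i : Fin κ, zb (f i.castSucc x) = a
    cases f (Fin.last κ) x <;> revert a <;> decide

/-- computing many functions -/
theorem ext_many (h : Slp L) {κ c : ℕ} (f : Fin κ → BF m)
    (hf : ∀ i, ∀ L', Slp L' → (∀ g, Av L g → Av L' g) → ∃ L'', Ext L' L'' c ∧ Av L'' (f i)) :
    ∃ L', Ext L L' (κ * c) ∧ ∀ i, Av L' (f i) := by
  induction κ with
  | zero => exact ⟨L, (Ext.refl h).mono (by omega), fun i => i.elim0⟩
  | succ κ ih =>
    obtain ⟨L1, h1, h2⟩ := ih (fun i => f i.castSucc) (fun i => hf _)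
    obtain ⟨L2, h3, h4⟩ := hf (Fin.last κ) L1 h1.1 h1.2.1
    refine ⟨L2, (h1.trans h3).mono (by rw [Nat.succ_mul]), fun i => ?_⟩
    refine Fin.lastCases h4 (fun j => h3.2.1 _ (h2 j)) i

end

end Pool.Agent.KCV
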