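import Pool.Agent.KCV.Fin
import Pool.Agent.KMS.Sparse

/-! The circuit value problem and its relatives. -/

namespace Pool.Agent.KCV

theorem existsCmp : ExistsCmp := fun _ _ he h8 h4 => Pool.Agent.KMS.exists_cmp he h8 h4

/-- **One pair of constants for all languages that agree with the circuit value problem.** -/
theorem hard_circ : ∃ c x0 : ℝ, 0 < c ∧ 1 ≤ x0 ∧ ∀ L : List Bool → Prop, Agrees L → Hard c x0 L :=
  hard_agrees existsCmp

end Pool.Agent.KCV
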