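import Pool.Agent.KCV.Slp

/-! Straight line programs as circuits. -/

namespace Pool.Agent.KCV

open Finset Pool.Agent.KE

/-- **The gates of a straight line program.** The gates `F`, `F + 1`, ... get the pointers `Q 0`, `Q 1`, ...;
the gate `1` is true, the gate `2` is false, and the variables are the gates `pa l`. -/
theorem slp_circ {m : ℕ} (F : ℕ) (hF : 2 < F) (pa : Fin m → ℕ) (hpa : ∀ l, pa l < F)
    {L : List (BF m)} (hL : Slp L) :
    ∃ Q : ℕ → ℕ × ℕ, (∀ i < L.length, (Q i).1 < F + i ∧ (Q i).2 < F + i) ∧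
      ∀ f, Av L f → ∃ α, α < F + L.length ∧ ∀ (v : ℕ → Bool) (x : Fin m → Bool), v 1 = true → v 2 = false →
        (∀ l, v (pa l) = x l) → (∀ i < L.length, v (F + i) = !(v (Q i).1 && v (Q i).2)) → v α = f x := by
  have hbase : ∀ (L : List (BF m)) (Q : ℕ → ℕ × ℕ) (f : BF m),
      ((∃ l, f = fun x => x l) ∨ ∃ b : Bool, f = fun _ => b) →
      ∃ α, α < F + L.length ∧ ∀ (v : ℕ → Bool) (x : Fin m → Bool), v 1 = true → v 2 = false →
        (∀ l, v (pa l) = x l) → (∀ i < L.length, v (F + i) = !(v (Q i).1 && v (Q i).2)) → v α = f x := by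
    rintro L Q f (⟨l, rfl⟩ | ⟨b, rfl⟩)
    · refine ⟨pa l, by have := hpa l; omega, fun v x _ _ h _ => h l⟩
    · cases b
      · exact ⟨2, by omega, fun v x _ h _ _ => h⟩
      · exact ⟨1, by omega, fun v x h _ _ _ => h⟩
  induction hL with
  | nil =>
    refine ⟨fun _ => (0, 0), fun i hi => absurd hi (by simp), fun f hf => ?_⟩
    rcases hf with hf | hf
    · exact absurd hf (by simp)
    · exact hbase [] _ f hf
  | @cons L p q hL hp hq ih =>
    obtain ⟨Q, hQ, hA⟩ := ih
    obtain ⟨αp, hαp, hvp⟩ := hA p hp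
    obtain ⟨αq, hαq, hvq⟩ := hA q hq
    obtain ⟨Q', hQ'⟩ : ∃ Q' : ℕ → ℕ × ℕ, Q' = fun i => if i < L.length then Q i else (αp, αq) := ⟨_, rfl⟩
    have h1 : ∀ i < L.length, Q' i = Q i := fun i hi => by rw [hQ']; simp only; rw [if_pos hi]
    have h2 : Q' L.length = (αp, αq) := by rw [hQ']; simp only; rw [if_neg (lt_irrefl _)]
    refine ⟨Q', fun i hi => ?_, fun f hf => ?_⟩
    · rw [List.length_cons] at hi
      by_cases h : i < L.length
      · rw [h1 i h]; exact hQ i h
      · obtain rfl : i = L.length := by omega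
        rw [h2]
        exact ⟨hαp, hαq⟩
    · rcases hf with hf | hf
      · rcases List.mem_cons.1 hf with rfl | hf
        · refine ⟨F + L.length, by rw [List.length_cons]; omega, fun v x ht hf hx hg => ?_⟩
          have hg' : ∀ i < L.length, v (F + i) = !(v (Q i).1 && v (Q i).2) := fun i hi => by
            rw [← h1 i hi]
            exact hg i (by rw [List.length_cons]; omega)
          rw [hg _ (by rw [List.length_cons]; omega), h2, hvp v x ht hf hx hg', hvq v x ht hf hx hg']
          rfl
        · obtain ⟨α, hα, hv⟩ := hA f (Or.inl hf)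
          refine ⟨α, by rw [List.length_cons]; omega, fun v x ht hf hx hg => ?_⟩
          exact hv v x ht hf hx fun i hi => by
            rw [← h1 i hi]
            exact hg i (by rw [List.length_cons]; omega)
      · exact hbase _ _ f hf

end Pool.Agent.KCV
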