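import Pool.Agent.KMR.Defs

/-! The circuit value problem and languages that agree with it on circuits without free variables. -/

namespace Pool.Agent.KCV

open Finset

/-- the number of digits of the numbers of wires in a word of length `N` -/
def len (N : ℕ) : ℕ := Nat.log 2 N + 1

/-- the letter `p` of the word `y` -/
def lt (y : List Bool) (p : ℕ) : Bool := y.getD p false

/-- the number whose binary digits are the letters `p`, `p + 1`, ... of the word -/
def ptr (y : List Bool) (p : ℕ) : ℕ := ∑ k ∈ range (len y.length), 2 ^ k * (lt y (p + k)).toNat

/-- the number of gates -/
def gates (y : List Bool) : ℕ := y.length / (2 * len y.length)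

/-- The value of the gate `i` of the circuit `y` if the variables have the values `a`. Gate `i` is the NAND
of the wires with the numbers `ptr y (2 * len * i)` and `ptr y (2 * len * i + len)`; a number `p < i` is the
gate `p`, a number `p ≥ i` is the variable `p`. -/
def val (y : List Bool) (a : ℕ → Bool) (i : ℕ) : Bool :=
  !((if _h : ptr y (2 * len y.length * i) < i then val y a (ptr y (2 * len y.length * i))
      else a (ptr y (2 * len y.length * i))) &&
    (if _h : ptr y (2 * len y.length * i + len y.length) < i then
        val y a (ptr y (2 * len y.length * i + len y.length))
      else a (ptr y (2 * len y.length * i + len y.length))))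
termination_by i

/-- the value of the last gate -/
def out (y : List Bool) (a : ℕ → Bool) : Bool := val y a (gates y - 1)

/-- **The circuit value problem**: the value is one if all variables are one. -/
def Cvp (y : List Bool) : Prop := out y (fun _ => true) = true

/-- **Circuit satisfiability.** -/
def Csat (y : List Bool) : Prop := ∃ a, out y a = true

/-- the variables `i`, ..., `i + k - 1` are quantified, those with even numbers existentially and those
with odd numbers universally -/
def alt : ℕ → ℕ → (ℕ → Bool) → ((ℕ → Bool) → Prop) → Prop
  | 0, _, a, φ => φ a
  | k + 1, i, a, φ => if i % 2 = 0 then ∃ b, alt k (i + 1) (Function.update a i b) φ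
      else ∀ b, alt k (i + 1) (Function.update a i b) φ

/-- **Quantified circuits.** -/
def Qcirc (y : List Bool) : Prop := alt (2 ^ len y.length) 0 (fun _ => true) fun a => out y a = true

/-- The language agrees with the circuit value problem on the circuits whose value does not depend on the
variables. -/
def Agrees (L : List Bool → Prop) : Prop :=
  ∀ y, (∀ a, out y a = out y fun _ => true) → (L y ↔ Cvp y)

theorem agrees_cvp : Agrees Cvp := fun _ _ => Iff.rfl

theorem agrees_csat : Agrees Csat := by
  intro y h
  unfold Csat Cvp
  constructor
  · rintro ⟨a, ha⟩
    rw [← h a, ha]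
  · intro ha
    exact ⟨_, ha⟩

theorem alt_const {φ : (ℕ → Bool) → Prop} {p : Prop} (h : ∀ a, φ a ↔ p) (k i : ℕ) (a : ℕ → Bool) :
    alt k i a φ ↔ p := by
  induction k generalizing i a with
  | zero => exact h a
  | succ k ih =>
    unfold alt
    split_ifs
    · constructor
      · rintro ⟨b, hb⟩
        exact (ih _ _).1 hb
      · intro hp
        exact ⟨true, (ih _ _).2 hp⟩
    · constructor
      · intro hb
        exact (ih _ _).1 (hb true)
      · intro hp b
        exact (ih _ _).2 hp

theorem agrees_qcirc : Agrees Qcirc := by
  intro y h
  unfold Qcirc Cvp
  refine alt_const (fun a => ?_) _ _ _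
  rw [h a]

end Pool.Agent.KCV
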