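import Pool.Agent.KCV.Val
import Pool.Agent.KMR.Abs
import Pool.Agent.KMQ.FinI

/-! Two-sided error for the circuit value problem. -/

namespace Pool.Agent.KCV

open Finset Pool.Agent.KNL Pool.Agent.KD Pool.Agent.KE Pool.Agent.KH
open Pool.Agent.KMQ (Halt Answers)
open Pool.Agent.KMR (time_absx)

/-- balanced functions with few gates exist -/
def ExistsCmp : Prop := ∀ m e : ℕ, 1 ≤ e → 8 * e ≤ m → 4 * m ≤ e ^ 2 →
  ∃ g : BF m, Pool.Agent.KE.Bal g e ∧ Cmp m (2 ^ 20 * (Nat.log 2 m + 2) ^ 3 * m) g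

/-- **the lower bound** for the language `L` with the constants `c` and `x0`; for `S ≤ N ^ (1 - ε)` this
is `T ≥ c' η N log N / log log N` -/
def Hard (c x0 : ℝ) (L : List Bool → Prop) : Prop :=
  ∀ (N S : ℕ) (η : ℝ), 1 ≤ S → x0 * (S * (len N : ℝ) ^ 5) ≤ N → 1 / 2 ^ S ≤ η →
    ∀ (ι : Type) [Fintype ι] (w : ι → ℝ) (V Γ : ι → Type) [∀ i, Fintype (V i)]
      (P : ∀ i, SBP (V i) (Γ i) (Fin N)) (rej : ∀ i, V i), (∀ i, 0 ≤ w i) → ∑ i, w i = 1 →
      (∀ i, Det (P i) ∧ Halt (P i) (rej i) ∧ rej i ≠ (P i).acc ∧ Fintype.card (V i) ≤ 2 ^ S) →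
      ∀ T : ℕ, (∀ y, 1 / 2 + η ≤ ∑ i, open Classical in if Answers L (P i) (rej i) T y then w i else 0) →
        c * η * N * Real.log (N / (S * (len N : ℝ) ^ 5)) /
          Real.log (Real.log (N / (S * (len N : ℝ) ^ 5))) ≤ T

/-- the logarithms of numbers of similar size -/
theorem log_tr {q r c a : ℝ} (hc : 0 ≤ c) (ha : 0 ≤ a) (hq : Real.exp 8 ≤ q) (hqr : q ≤ r)
    (hrq : r ≤ q ^ 2) :
    c / 2 * a * Real.log r / Real.log (Real.log r) ≤ c * a * Real.log q / Real.log (Real.log q) := by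
  have hq0 : 0 < q := lt_of_lt_of_le (Real.exp_pos _) hq
  have hr0 : 0 < r := by linarith
  have hL : 8 ≤ Real.log q := by
    rw [Real.le_log_iff_exp_le hq0]
    exact hq
  have hle : Real.log q ≤ Real.log r := Real.log_le_log hq0 hqr
  have hlog : Real.log r ≤ 2 * Real.log q := by
    have h1 := Real.log_le_log hr0 hrq
    rw [Real.log_pow] at h1
    exact_mod_cast h1
  have hl1 : 0 < Real.log (Real.log q) := Real.log_pos (by linarith)
  have hl2 : Real.log (Real.log q) ≤ Real.log (Real.log r) := Real.log_le_log (by linarith) hle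
  have h1 : c / 2 * a * Real.log r ≤ c * a * Real.log q := by
    have h3 : 0 ≤ c / 2 * a := by positivity
    calc c / 2 * a * Real.log r ≤ c / 2 * a * (2 * Real.log q) := mul_le_mul_of_nonneg_left hlog h3
      _ = c * a * Real.log q := by ring
  have h0 : 0 ≤ c * a * Real.log q := by
    have : 0 ≤ Real.log q := by linarith
    positivity
  calc c / 2 * a * Real.log r / Real.log (Real.log r)
      ≤ c * a * Real.log q / Real.log (Real.log r) := div_le_div_of_nonneg_right h1 (hl1.le.trans hl2)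
    _ ≤ _ := div_le_div_of_nonneg_left h0 hl1 hl2

/-- smaller constants -/
theorem Hard.mono {c x0 c' x0' : ℝ} {L : List Bool → Prop} (h : Hard c x0 L) (hc : c' ≤ c)
    (hx : x0 ≤ x0') (he : Real.exp (Real.exp 1) ≤ x0') : Hard c' x0' L := by
  intro N S η hS hx1 hη ι _ w V Γ _ P rej hw0 hw1 hP T hT
  have hS1 : (1 : ℝ) ≤ S := by exact_mod_cast hS
  have hS0 : (0 : ℝ) < S := by linarith
  have hl1 : (1 : ℝ) ≤ len N := by exact_mod_cast len_pos N
  have hd : (0 : ℝ) < S * (len N : ℝ) ^ 5 := by positivity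
  have hη0 : 0 ≤ η := le_trans (by positivity) hη
  obtain ⟨r, hr⟩ : ∃ r : ℝ, r = N / (S * (len N : ℝ) ^ 5) := ⟨_, rfl⟩
  have hq : Real.exp (Real.exp 1) ≤ r := by
    rw [hr, le_div_iff₀ hd]
    exact (mul_le_mul_of_nonneg_right he hd.le).trans hx1
  have hl : Real.exp 1 ≤ Real.log r := by
    rw [Real.le_log_iff_exp_le (lt_of_lt_of_le (Real.exp_pos _) hq)]
    exact hq
  have hl0 : 0 ≤ Real.log r := (Real.exp_pos _).le.trans hl
  have hll : 0 ≤ Real.log (Real.log r) :=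
    Real.log_nonneg (le_trans (by have := Real.add_one_le_exp 1; linarith) hl)
  refine le_trans ?_ (h N S η hS ((mul_le_mul_of_nonneg_right hx hd.le).trans hx1) hη ι w V Γ P rej
    hw0 hw1 hP T hT)
  rw [← hr]
  refine div_le_div_of_nonneg_right ?_ hll
  refine mul_le_mul_of_nonneg_right ?_ hl0
  refine mul_le_mul_of_nonneg_right ?_ (Nat.cast_nonneg _)
  exact mul_le_mul_of_nonneg_right hc hη0

/-- the parameters of the circuit -/
theorem params {N n B t h : ℕ} (hN : 2 ^ 30 * len N ^ 5 ≤ N) (hn : n = N / (2 ^ 26 * len N ^ 5))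
    (hB : B = N / (40 * len N * n)) (ht : t = len N / 2) (hh : h = 2 ^ t) :
    1 ≤ n ∧ 1 ≤ B ∧ 2 ≤ t ∧ t < len N ∧
      2 ^ (t + 1) + 5 * (B * n) + 2 ^ 20 * (Nat.log 2 n + 2) ^ 3 * n + 2 ≤ N / (2 * len N) ∧
      N ≤ 320 * (B * t * n) := by
  obtain ⟨l, hl⟩ : ∃ l, l = len N := ⟨_, rfl⟩
  rw [← hl] at hN hn hB ht ⊢
  have hl1 : 1 ≤ l := by rw [hl]; exact len_pos N
  have hl5 : 1 ≤ l ^ 5 := Nat.one_le_pow _ _ hl1
  have hN30 : 2 ^ 30 ≤ N := le_trans (by omega) hN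
  have hlog : 30 ≤ Nat.log 2 N := Nat.le_log_of_pow_le (by norm_num) hN30
  have hl31 : 31 ≤ l := by rw [hl]; unfold len; omega
  have hn1 : 1 ≤ n := by
    rw [hn, Nat.le_div_iff_mul_le (by positivity)]
    calc 1 * (2 ^ 26 * l ^ 5) ≤ 2 ^ 30 * l ^ 5 := by
          rw [one_mul]
          exact Nat.mul_le_mul_right _ (by norm_num)
      _ ≤ N := hN
  have hnN : 2 ^ 26 * l ^ 5 * n ≤ N := by
    rw [hn, mul_comm]
    exact Nat.div_mul_le_self _ _
  have hlp : ∀ i j : ℕ, i ≤ j → l ^ i ≤ l ^ j := fun i j h => Nat.pow_le_pow_right (by omega) h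
  have hn40 : 40 * l * n ≤ N := by
    refine le_trans ?_ hnN
    refine Nat.mul_le_mul_right _ ?_
    have := hlp 1 5 (by norm_num)
    rw [pow_one] at this
    calc 40 * l ≤ 2 ^ 26 * l := Nat.mul_le_mul_right _ (by norm_num)
      _ ≤ 2 ^ 26 * l ^ 5 := Nat.mul_le_mul_left _ this
  have hB1 : 1 ≤ B := by
    rw [hB, Nat.le_div_iff_mul_le (by positivity), one_mul]
    exact hn40
  have hBn : 40 * l * n * B ≤ N := by
    rw [hB, mul_comm]
    exact Nat.div_mul_le_self _ _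
  have hBn' : N < 40 * l * n * (B + 1) := by
    rw [hB]
    exact Nat.lt_mul_div_succ _ (by positivity)
  have hn_le : n ≤ N := by rw [hn]; exact Nat.div_le_self _ _
  have hlogn : Nat.log 2 n + 2 ≤ 2 * l := by
    have h1 : Nat.log 2 n ≤ Nat.log 2 N := Nat.log_mono_right hn_le
    have h2 : l = Nat.log 2 N + 1 := hl
    omega
  -- the size of the table
  have hh2 : h ^ 2 ≤ 2 * N := by
    rw [hh, ← pow_mul]
    calc 2 ^ (t * 2) ≤ 2 ^ (Nat.log 2 N + 1) := by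
          refine Nat.pow_le_pow_right (by norm_num) ?_
          have h2 : l = Nat.log 2 N + 1 := hl
          omega
      _ = 2 * 2 ^ Nat.log 2 N := by rw [pow_succ]; ring
      _ ≤ 2 * N := Nat.mul_le_mul_left _ (Nat.pow_log_le_self 2 (by omega))
  have hh3 : 16 * l * (h + 1) ≤ N := by
    have h1 : (h + 1) ^ 2 ≤ 8 * N := by
      have h2 : (h + 1) ^ 2 ≤ 2 * h ^ 2 + 2 := by
        have : (h + 1) ^ 2 = h ^ 2 + 2 * h + 1 := by ring
        have h4 : 2 * h ≤ h ^ 2 + 1 := by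
          zify
          nlinarith [sq_nonneg ((h : ℤ) - 1)]
        omega
      omega
    have h3 : (16 * l * (h + 1)) ^ 2 ≤ N ^ 2 := by
      calc (16 * l * (h + 1)) ^ 2 = 256 * l ^ 2 * (h + 1) ^ 2 := by ring
        _ ≤ 256 * l ^ 2 * (8 * N) := Nat.mul_le_mul_left _ h1
        _ = 2048 * l ^ 2 * N := by ring
        _ ≤ N * N := by
          refine Nat.mul_le_mul_right _ ?_
          calc 2048 * l ^ 2 ≤ 2 ^ 30 * l ^ 2 := Nat.mul_le_mul_right _ (by norm_num)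
            _ ≤ 2 ^ 30 * l ^ 5 := Nat.mul_le_mul_left _ (hlp 2 5 (by norm_num))
            _ ≤ N := hN
        _ = N ^ 2 := by ring
    exact (Nat.pow_le_pow_iff_left (by norm_num)).1 h3
  refine ⟨hn1, hB1, by omega, by omega, ?_, ?_⟩
  · rw [Nat.le_div_iff_mul_le (by positivity)]
    have hG : 2 ^ 20 * (Nat.log 2 n + 2) ^ 3 * n * (8 * l) ≤ N := by
      calc 2 ^ 20 * (Nat.log 2 n + 2) ^ 3 * n * (8 * l) ≤ 2 ^ 20 * (2 * l) ^ 3 * n * (8 * l) := by
            refine Nat.mul_le_mul_right _ (Nat.mul_le_mul_right _ (Nat.mul_le_mul_left _ ?_))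
            exact Nat.pow_le_pow_left hlogn 3
        _ = 2 ^ 26 * l ^ 4 * n := by ring
        _ ≤ 2 ^ 26 * l ^ 5 * n := Nat.mul_le_mul_right _ (Nat.mul_le_mul_left _ (hlp 4 5 (by norm_num)))
        _ ≤ N := hnN
    have e1 : (2 ^ (t + 1) + 5 * (B * n) + 2 ^ 20 * (Nat.log 2 n + 2) ^ 3 * n + 2) * (2 * l) * 4 =
        16 * l * (h + 1) + 40 * l * n * B + 2 ^ 20 * (Nat.log 2 n + 2) ^ 3 * n * (8 * l) := by
      rw [pow_succ, ← hh]
      ring
    omega
  · have h1 : 40 * l * n * (B + 1) ≤ 80 * l * n * B := by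
      have : B + 1 ≤ 2 * B := by omega
      calc 40 * l * n * (B + 1) ≤ 40 * l * n * (2 * B) := Nat.mul_le_mul_left _ this
        _ = 80 * l * n * B := by ring
    have h2 : 80 * l * n * B ≤ 320 * (B * t * n) := by
      have : l ≤ 4 * t := by omega
      calc 80 * l * n * B ≤ 80 * (4 * t) * n * B :=
            Nat.mul_le_mul_right _ (Nat.mul_le_mul_right _ (Nat.mul_le_mul_left _ this))
        _ = 320 * (B * t * n) := by ring
    omega

/-- **Languages that agree with the circuit value problem on circuits without free variables.** -/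
theorem hard_agrees (hE : ExistsCmp) : ∃ c x0 : ℝ, 0 < c ∧ 1 ≤ x0 ∧ ∀ L : List Bool → Prop,
    Agrees L → Hard c x0 L := by
  obtain ⟨c, x0, hc, hx0, h⟩ := time_absx 320 (by norm_num)
  refine ⟨c / 2, max (2 ^ 54 : ℝ) (2 ^ 27 * x0), by positivity,
    le_max_of_le_left (by norm_num), ?_⟩
  intro L hL N S η hS hx hη ι _ w V Γ _ P rej hw0 hw1 hP T hT
  have hS1 : (1 : ℝ) ≤ S := by exact_mod_cast hS
  have hS0 : (0 : ℝ) < S := by linarith
  have hl1 : (1 : ℝ) ≤ len N := by exact_mod_cast len_pos N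
  have hl5 : (1 : ℝ) ≤ (len N : ℝ) ^ 5 := one_le_pow₀ hl1
  have hd : (0 : ℝ) < S * (len N : ℝ) ^ 5 := by positivity
  have hη0 : 0 ≤ η := le_trans (by positivity) hη
  have hx1 : 2 ^ 54 * (S * (len N : ℝ) ^ 5) ≤ N :=
    le_trans (mul_le_mul_of_nonneg_right (le_max_left _ _) hd.le) hx
  have hx2 : 2 ^ 27 * x0 * (S * (len N : ℝ) ^ 5) ≤ N :=
    le_trans (mul_le_mul_of_nonneg_right (le_max_right _ _) hd.le) hx
  have hN : 2 ^ 30 * len N ^ 5 ≤ N := by
    have h1 : (2 ^ 30 : ℝ) * (len N : ℝ) ^ 5 ≤ N := by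
      refine le_trans ?_ hx1
      have h2 : (len N : ℝ) ^ 5 ≤ S * (len N : ℝ) ^ 5 := le_mul_of_one_le_left (by positivity) hS1
      calc (2 ^ 30 : ℝ) * (len N : ℝ) ^ 5 ≤ 2 ^ 54 * (len N : ℝ) ^ 5 :=
            mul_le_mul_of_nonneg_right (by norm_num) (by positivity)
        _ ≤ _ := mul_le_mul_of_nonneg_left h2 (by norm_num)
    exact_mod_cast h1
  obtain ⟨n, hn⟩ : ∃ n, n = N / (2 ^ 26 * len N ^ 5) := ⟨_, rfl⟩
  obtain ⟨hn1, hB1, ht2, htl, hM, hNK⟩ := params hN hn rfl rfl rfl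
  -- the size of the blocks
  have hnu : (2 ^ 26 * len N ^ 5 : ℝ) * n ≤ N := by
    have h1 : 2 ^ 26 * len N ^ 5 * n ≤ N := by
      rw [hn, mul_comm]
      exact Nat.div_mul_le_self _ _
    exact_mod_cast h1
  have hnl : (N : ℝ) ≤ 2 ^ 27 * (len N : ℝ) ^ 5 * n := by
    have h1 : N < 2 ^ 26 * len N ^ 5 * (n + 1) := by
      rw [hn]
      exact Nat.lt_mul_div_succ _ (by have := len_pos N; positivity)
    have h2 : 2 ^ 26 * len N ^ 5 * (n + 1) ≤ 2 ^ 27 * len N ^ 5 * n := by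
      calc 2 ^ 26 * len N ^ 5 * (n + 1) ≤ 2 ^ 26 * len N ^ 5 * (2 * n) := Nat.mul_le_mul_left _ (by omega)
        _ = 2 ^ 27 * len N ^ 5 * n := by ring
    have h3 : N ≤ 2 ^ 27 * len N ^ 5 * n := by omega
    exact_mod_cast h3
  have hxS : x0 * S ≤ n := by
    have h1 : 2 ^ 27 * (len N : ℝ) ^ 5 * (x0 * S) ≤ 2 ^ 27 * (len N : ℝ) ^ 5 * n := by
      calc (2 : ℝ) ^ 27 * (len N : ℝ) ^ 5 * (x0 * S) = 2 ^ 27 * x0 * (S * (len N : ℝ) ^ 5) := by ring
        _ ≤ (N : ℝ) := hx2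
        _ ≤ _ := hnl
    exact le_of_mul_le_mul_left h1 (by positivity)
  obtain ⟨pos, hpos, hz⟩ := circ_blocks ht2 htl hB1 hn1 hM
  have key := h N n _ S η hS hxS (Nat.mul_pos hB1 (by omega)) hNK hη pos hpos L
    (fun e he h8 h4 => by
      obtain ⟨g, hbal, hg⟩ := hE n e he h8 h4
      obtain ⟨z0, hz0⟩ := hz g hg
      refine ⟨g, hbal, z0, fun X => ?_⟩
      rw [hL _ fun a => by rw [hz0 X a, hz0 X]]
      unfold Cvp
      rw [hz0 X])
    ι w V Γ P hw0 hw1 (fun i => ⟨(hP i).1, (hP i).2.2.2⟩) T (fun y => ?_)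
  · refine le_trans ?_ key
    obtain ⟨r, hr⟩ : ∃ r : ℝ, r = N / (S * (len N : ℝ) ^ 5) := ⟨_, rfl⟩
    obtain ⟨q, hq⟩ : ∃ q : ℝ, q = n / S := ⟨_, rfl⟩
    rw [← hr, ← hq]
    have hqr : 2 ^ 26 * q ≤ r := by
      rw [hr, hq, le_div_iff₀ hd]
      calc (2 : ℝ) ^ 26 * ((n : ℝ) / S) * (S * (len N : ℝ) ^ 5) = 2 ^ 26 * (len N : ℝ) ^ 5 * n := by
            field_simp
        _ ≤ (N : ℝ) := hnu
    have hrq : r ≤ 2 ^ 27 * q := by
      rw [hr, hq, div_le_iff₀ hd]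
      calc (N : ℝ) ≤ 2 ^ 27 * (len N : ℝ) ^ 5 * n := hnl
        _ = 2 ^ 27 * ((n : ℝ) / S) * (S * (len N : ℝ) ^ 5) := by field_simp
    have hr54 : 2 ^ 54 ≤ r := by
      rw [hr, le_div_iff₀ hd]
      exact hx1
    have hq27 : 2 ^ 27 ≤ q := by linarith
    have he : Real.exp 8 ≤ 2 ^ 27 := by
      have h1 : Real.exp 8 = Real.exp 1 ^ 8 := by rw [← Real.exp_nat_mul]; norm_num
      rw [h1]
      calc Real.exp 1 ^ 8 ≤ 3 ^ 8 :=
            pow_le_pow_left₀ (Real.exp_pos _).le (by have := Real.exp_one_lt_d9; linarith) 8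
        _ ≤ 2 ^ 27 := by norm_num
    have h1 := log_tr (q := q) (r := r) hc.le (a := η * N) (by positivity) (by linarith) (by linarith)
      (hrq.trans (by nlinarith))
    calc c / 2 * η * N * Real.log r / Real.log (Real.log r) =
          c / 2 * (η * N) * Real.log r / Real.log (Real.log r) := by ring
      _ ≤ c * (η * N) * Real.log q / Real.log (Real.log q) := h1
      _ = c * η * N * Real.log q / Real.log (Real.log q) := by ring
  · refine (hT y).trans (Finset.sum_le_sum fun i _ => ?_)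
    split_ifs with h1 h2 h2
    · exact le_rfl
    · exact absurd (h1.correct (hP i).1 (hP i).2.1 (hP i).2.2.1) h2
    · exact hw0 i
    · exact le_rfl

end Pool.Agent.KCV
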