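import Pool.Agent.KCV.Word
import Pool.Agent.KMQ.Sys

/-! The value of the circuit. -/

namespace Pool.Agent.KCV

open Finset Pool.Agent.KE Pool.Agent.KH
open Pool.Agent.KMQ (zb_true zb_false)

section
variable {N : ℕ} {c : Prm} (hc : c.Ok) (hl : c.l = len N) (hM : c.M = N / (2 * len N))
  (X : Fin (c.B * c.t) → Fin c.m → Bool) (a : ℕ → Bool)

/-- the values of the gates -/
noncomputable def vl (i : ℕ) : Bool := val (yX hc hl hM X) a i

theorem vl_gate {i : ℕ} (hi : i < c.M) (h1 : (c.PD (dat c.t X) i).1 < i) (h2 : (c.PD (dat c.t X) i).2 < i) :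
    vl hc hl hM X a i = !(vl hc hl hM X a (c.PD (dat c.t X) i).1 && vl hc hl hM X a (c.PD (dat c.t X) i).2) := by
  unfold vl
  rw [hM] at hi
  refine val_eq ?_ ?_ h1 h2
  · rw [len_yX, ptr_fst hc hl hM X hi]
  · rw [len_yX, ptr_snd hc hl hM X hi]

theorem PD_of_not {D : ℕ → ℕ → Bool} {i : ℕ} (h : ¬ c.isD i) : c.PD D i = c.P i := by
  unfold Prm.PD
  rw [if_neg h]

theorem isD_ge {i : ℕ} (h : c.isD i) : c.A ≤ i ∧ i < c.F := h.1

include hc in
theorem P_one : c.P 0 = (2 ^ c.l - 1, 2 ^ c.l - 1) ∧ c.P 1 = (0, 2 ^ c.l - 1) := by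
  unfold Prm.P
  exact ⟨by rw [if_pos rfl], by rw [if_neg (by omega), if_pos rfl]⟩

theorem vl_zero : vl hc hl hM X a 0 = !(a (2 ^ c.l - 1)) := by
  have h1 : 0 < N / (2 * len N) := by
    have := hc.hM
    omega
  have hA := hc.A_eq
  have h4 := hc.four
  have hnd : ¬ c.isD 0 := fun h => by have := (isD_ge h).1; omega
  have e1 := ptr_fst hc hl hM X h1
  have e2 := ptr_snd hc hl hM X h1
  rw [PD_of_not hnd, (P_one hc).1] at e1 e2
  unfold vl
  rw [val, len_yX]
  rw [mul_zero] at e1 e2
  rw [mul_zero, e1, e2]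
  simp

theorem vl_one : vl hc hl hM X a 1 = true := by
  have h1 : 1 < N / (2 * len N) := by
    have := hc.hM
    have := hc.A_eq
    have := hc.four
    have := hc.AF
    omega
  have hA := hc.A_eq
  have h4 := hc.four
  have hMl := hc.hMl
  have hnd : ¬ c.isD 1 := fun h => by have := (isD_ge h).1; omega
  have e1 := ptr_fst hc hl hM X h1
  have e2 := ptr_snd hc hl hM X h1
  rw [PD_of_not hnd, (P_one hc).2] at e1 e2
  unfold vl
  rw [val, len_yX]
  rw [mul_one] at e1 e2
  rw [mul_one, e1, e2]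
  simp only
  rw [dif_pos (by omega), dif_neg (by omega)]
  have h0 := vl_zero hc hl hM X a
  unfold vl at h0
  rw [h0]
  cases a (2 ^ c.l - 1) <;> rfl

theorem vl_two : vl hc hl hM X a 2 = false := by
  have hA := hc.A_eq
  have h4 := hc.four
  have hAF := hc.AF
  have hM' := hc.hM
  have hnd : ¬ c.isD 2 := fun h => by have := (isD_ge h).1; omega
  have hp : c.PD (dat c.t X) 2 = (1, 1) := by
    rw [PD_of_not hnd]
    unfold Prm.P
    rw [if_neg (by omega), if_neg (by omega), if_pos (by omega)]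
  rw [vl_gate hc hl hM X a (by omega) (by rw [hp]; norm_num) (by rw [hp]; norm_num), hp]
  simp only
  rw [vl_one]
  rfl

theorem vl_table {j : ℕ} (hj : j < 2 ^ c.t) : vl hc hl hM X a (2 ^ c.t + j) = !par c.t j := by
  have hA := hc.A_eq
  have h4 := hc.four
  have hAF := hc.AF
  have hM' := hc.hM
  have hnd : ¬ c.isD (2 ^ c.t + j) := fun h => by have := (isD_ge h).1; omega
  have hp : c.PD (dat c.t X) (2 ^ c.t + j) = if par c.t j then (1, 1) else (2, 2) := by
    rw [PD_of_not hnd]
    unfold Prm.P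
    rw [if_neg (by omega), if_neg (by omega), if_neg (by omega), if_pos (by omega), Nat.add_sub_cancel_left]
  have h1 : (c.PD (dat c.t X) (2 ^ c.t + j)).1 < 2 ^ c.t + j := by
    rw [hp]
    split_ifs <;> simp only <;> omega
  have h2 : (c.PD (dat c.t X) (2 ^ c.t + j)).2 < 2 ^ c.t + j := by
    rw [hp]
    split_ifs <;> simp only <;> omega
  rw [vl_gate hc hl hM X a (by omega) h1 h2, hp]
  by_cases h : par c.t j = true
  · rw [if_pos h, h]
    simp only
    rw [vl_one]
    rfl
  · rw [if_neg h]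
    simp only
    rw [vl_two]
    rw [Bool.not_eq_true] at h
    rw [h]
    rfl

include hc in
/-- the pointers of the five gates -/
theorem P_five {q r : ℕ} (hq : q < c.B * c.m) (hr : r < 5) : c.P (c.A + 5 * q + r) = c.five q r := by
  have hA := hc.A_eq
  have h4 := hc.four
  have hF : c.F = c.A + 5 * (c.B * c.m) := rfl
  unfold Prm.P
  rw [if_neg (by omega), if_neg (by omega), if_neg (by omega), if_neg (by omega), if_pos (by omega)]
  have h1 : (c.A + 5 * q + r - c.A) / 5 = q := by omega
  have h2 : (c.A + 5 * q + r - c.A) % 5 = r := by omega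
  rw [h1, h2]

theorem vl_data {q : ℕ} (hq : q < c.B * c.m) :
    vl hc hl hM X a (c.A + 5 * q) = decide (∑ k ∈ range c.t, zb (dat c.t X q k) = 1) := by
  have hA := hc.A_eq
  have h4 := hc.four
  have hF : c.F = c.A + 5 * (c.B * c.m) := rfl
  have hM' := hc.hM
  have hd : c.isD (c.A + 5 * q) := ⟨⟨by omega, by omega⟩, by omega⟩
  have h1 : (c.A + 5 * q - c.A) / 5 = q := by omega
  have hp : c.PD (dat c.t X) (c.A + 5 * q) = (2 ^ c.t + dig c.t (dat c.t X q), 1) := by
    unfold Prm.PD
    rw [if_pos hd, h1]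
  have h2 := dig_lt c.t (dat c.t X q)
  rw [vl_gate hc hl hM X a (by omega) (by rw [hp]; simp only; omega) (by rw [hp]; simp only; omega), hp]
  simp only
  rw [vl_one, vl_table hc hl hM X a h2, Bool.and_true, Bool.not_not]
  unfold par
  congr 2
  refine Finset.sum_congr rfl fun k hk => ?_
  rw [testBit_dig (mem_range.1 hk)]

/-- the accumulator before the data gate -/
def acc (c : Prm) (q : ℕ) : ℕ := if q < c.m then 2 else c.A + 5 * (q - c.m) + 4

theorem vl_five {q : ℕ} (hq : q < c.B * c.m) :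
    vl hc hl hM X a (c.A + 5 * q + 4) =
      xor (vl hc hl hM X a (acc c q)) (vl hc hl hM X a (c.A + 5 * q)) := by
  have hA := hc.A_eq
  have h4 := hc.four
  have hF : c.F = c.A + 5 * (c.B * c.m) := rfl
  have hM' := hc.hM
  have hm := hc.hm
  have ha : acc c q < c.A + 5 * q + 1 := by
    unfold acc
    split_ifs <;> omega
  have hnd : ∀ r, 1 ≤ r → r < 5 → ¬ c.isD (c.A + 5 * q + r) := fun r h1 h2 h => by
    have := h.2
    omega
  have p1 : c.PD (dat c.t X) (c.A + 5 * q + 1) = (acc c q, c.A + 5 * q) := by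
    rw [PD_of_not (hnd 1 (by omega) (by omega)), P_five hc hq (by omega)]
    unfold Prm.five
    rw [if_neg (by omega), if_pos rfl]
    rfl
  have p2 : c.PD (dat c.t X) (c.A + 5 * q + 2) = (acc c q, c.A + 5 * q + 1) := by
    rw [PD_of_not (hnd 2 (by omega) (by omega)), P_five hc hq (by omega)]
    unfold Prm.five
    rw [if_neg (by omega), if_neg (by omega), if_pos rfl]
    rfl
  have p3 : c.PD (dat c.t X) (c.A + 5 * q + 3) = (c.A + 5 * q, c.A + 5 * q + 1) := by
    rw [PD_of_not (hnd 3 (by omega) (by omega)), P_five hc hq (by omega)]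
    unfold Prm.five
    rw [if_neg (by omega), if_neg (by omega), if_neg (by omega), if_pos rfl]
  have p4 : c.PD (dat c.t X) (c.A + 5 * q + 4) = (c.A + 5 * q + 2, c.A + 5 * q + 3) := by
    rw [PD_of_not (hnd 4 (by omega) (by omega)), P_five hc hq (by omega)]
    unfold Prm.five
    rw [if_neg (by omega), if_neg (by omega), if_neg (by omega), if_neg (by omega)]
  rw [vl_gate hc hl hM X a (i := c.A + 5 * q + 4) (by omega) (by rw [p4]; simp only; omega)
    (by rw [p4]; simp only; omega), p4]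
  simp only
  rw [vl_gate hc hl hM X a (i := c.A + 5 * q + 2) (by omega) (by rw [p2]; simp only; omega)
    (by rw [p2]; simp only; omega), p2, vl_gate hc hl hM X a (i := c.A + 5 * q + 3) (by omega)
    (by rw [p3]; simp only; omega) (by rw [p3]; simp only; omega), p3]
  simp only
  rw [vl_gate hc hl hM X a (i := c.A + 5 * q + 1) (by omega) (by rw [p1]; simp only; omega)
    (by rw [p1]; simp only; omega), p1]
  simp only
  cases vl hc hl hM X a (acc c q) <;> cases vl hc hl hM X a (c.A + 5 * q) <;> rfl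

/-- the accumulators -/
theorem vl_acc {l : ℕ} (hlm : l < c.m) {b : ℕ} (hb : b < c.B) :
    vl hc hl hM X a (c.A + 5 * (b * c.m + l) + 4) =
      decide (∑ j ∈ range ((b + 1) * c.t), zb (nX X j l) = 1) := by
  have hdat : ∀ b k, dat c.t X (b * c.m + l) k = nX X (b * c.t + k) l := by
    intro b k
    unfold dat
    rw [mul_comm b c.m, Nat.mul_add_div (by omega), Nat.div_eq_of_lt hlm, add_zero, Nat.mul_add_mod,
      Nat.mod_eq_of_lt hlm]
  have hx : ∀ x y : ZMod 2, xor (decide (x = 1)) (decide (y = 1)) = decide (x + y = 1) := by decide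
  induction b with
  | zero =>
    have hq := row_lt hb hlm
    rw [vl_five hc hl hM X a hq, vl_data hc hl hM X a hq]
    unfold acc
    rw [if_pos (by omega), vl_two, Bool.false_xor]
    congr 2
    rw [zero_add, one_mul]
    refine Finset.sum_congr rfl fun k _ => ?_
    rw [hdat, Nat.zero_mul, zero_add]
  | succ b ih =>
    have hq := row_lt hb hlm
    rw [vl_five hc hl hM X a hq, vl_data hc hl hM X a hq]
    have h1 : acc c ((b + 1) * c.m + l) = c.A + 5 * (b * c.m + l) + 4 := by
      have h2 : (b + 1) * c.m + l = b * c.m + l + c.m := by ring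
      unfold acc
      rw [h2, if_neg (by omega), Nat.add_sub_cancel]
    rw [h1, ih (by omega), hx]
    congr 2
    have h3 : (b + 1 + 1) * c.t = (b + 1) * c.t + c.t := by ring
    rw [h3, Finset.sum_range_add]
    congr 1
    refine Finset.sum_congr rfl fun k _ => ?_
    rw [hdat]

/-- the gate that contains a variable of the straight line program -/
def pa (c : Prm) (l : Fin c.m) : ℕ := c.A + 5 * ((c.B - 1) * c.m + l) + 4

theorem vl_pa (l : Fin c.m) : vl hc hl hM X a (pa c l) = xs X l := by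
  have hB := hc.hB
  unfold pa
  rw [vl_acc hc hl hM X a l.2 (by omega)]
  unfold xs
  congr 2
  rw [Nat.sub_add_cancel hB, ← Fin.sum_univ_eq_sum_range]
  refine Finset.sum_congr rfl fun b _ => ?_
  rw [nX_in X b.2 l.2]

include hc in
theorem pa_lt (l : Fin c.m) : pa c l < c.F := by
  have hB := hc.hB
  have h := row_lt (B := c.B) (b := c.B - 1) (by omega) l.2
  have hF : c.F = c.A + 5 * (c.B * c.m) := rfl
  unfold pa
  omega

/-- the output of the circuit -/
theorem out_yX : out (yX hc hl hM X) a = vl hc hl hM X a c.o := by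
  have hA := hc.A_eq
  have h4 := hc.four
  have hAF := hc.AF
  have hM' := hc.hM
  have ho := hc.ho
  have e1 : out (yX hc hl hM X) a = vl hc hl hM X a (c.M - 1) := by
    unfold out vl gates
    rw [len_yX, ← hM]
  have hnd : ∀ i, c.F ≤ i → ¬ c.isD i := fun i hi h => by have := (isD_ge h).2; omega
  have p1 : c.PD (dat c.t X) (c.M - 1) = (c.F + c.G, c.F + c.G) := by
    rw [PD_of_not (hnd _ (by omega))]
    unfold Prm.P
    rw [if_neg (by omega), if_neg (by omega), if_neg (by omega), if_neg (by omega), if_neg (by omega),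
      if_neg (by omega), if_neg (by omega), if_pos (by omega)]
  have p2 : c.PD (dat c.t X) (c.F + c.G) = (c.o, c.o) := by
    rw [PD_of_not (hnd _ (by omega))]
    unfold Prm.P
    rw [if_neg (by omega), if_neg (by omega), if_neg (by omega), if_neg (by omega), if_neg (by omega),
      if_neg (by omega), if_pos rfl]
  rw [e1, vl_gate hc hl hM X a (i := c.M - 1) (by omega) (by rw [p1]; simp only; omega)
    (by rw [p1]; simp only; omega), p1]
  simp only
  rw [vl_gate hc hl hM X a (i := c.F + c.G) (by omega) (by rw [p2]; simp only; omega)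
    (by rw [p2]; simp only; omega), p2]
  simp only
  cases vl hc hl hM X a c.o <;> rfl

/-- the gates of the straight line program -/
theorem vl_slp {i : ℕ} (hi : i < c.G) :
    vl hc hl hM X a (c.F + i) = !(vl hc hl hM X a (c.Q i).1 && vl hc hl hM X a (c.Q i).2) := by
  have hA := hc.A_eq
  have h4 := hc.four
  have hAF := hc.AF
  have hM' := hc.hM
  have hQ := hc.hQ i hi
  have hnd : ¬ c.isD (c.F + i) := fun h => by have := (isD_ge h).2; omega
  have p1 : c.PD (dat c.t X) (c.F + i) = c.Q i := by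
    rw [PD_of_not hnd]
    unfold Prm.P
    rw [if_neg (by omega), if_neg (by omega), if_neg (by omega), if_neg (by omega), if_neg (by omega),
      if_pos (by omega), Nat.add_sub_cancel_left]
  rw [vl_gate hc hl hM X a (by omega) (by rw [p1]; exact hQ.1) (by rw [p1]; exact hQ.2), p1]

end

/-- **The circuit value problem contains a function with a short straight line program, of the sum of
many blocks.** -/
theorem circ_blocks {N t B m : ℕ} (ht : 2 ≤ t) (htl : t < len N) (hB : 1 ≤ B) (hm : 1 ≤ m) {G : ℕ}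
    (hG : 2 ^ (t + 1) + 5 * (B * m) + G + 2 ≤ N / (2 * len N)) :
    ∃ pos : Fin (B * t) → Fin m → Fin N, (∀ b b' i i', pos b i = pos b' i' → b = b' ∧ i = i') ∧
      ∀ g : BF m, Cmp m G g → ∃ z0 : Fin N → Bool, ∀ X, ∀ a, out (List.ofFn (wd pos z0 X)) a = g (xs X) := by
  obtain ⟨c0, hc0⟩ : ∃ c0 : Prm, c0 = ⟨len N, t, B, m, 0, N / (2 * len N), fun _ => (0, 0), 0⟩ := ⟨_, rfl⟩
  have hgates := gates_lt N
  have hF : ∀ (G : ℕ) Q o, (⟨len N, t, B, m, G, N / (2 * len N), Q, o⟩ : Prm).F =
      2 ^ (t + 1) + 5 * (B * m) := fun _ _ _ => rfl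
  have h0 : (⟨len N, t, B, m, 0, N / (2 * len N), fun _ => (0, 0), 0⟩ : Prm).Ok := by
    refine ⟨ht, htl, hB, hm, ?_, hgates, fun i hi => absurd hi (by simp), ?_⟩
    · rw [hF]
      simp only
      omega
    · rw [hF]
      simp only
      have : 0 < 2 ^ (t + 1) := by positivity
      omega
  refine ⟨pos h0 rfl rfl, fun b b' i i' h => pos_inj h0 rfl rfl h, fun g hg => ?_⟩
  obtain ⟨L, hL, hav⟩ := hg
  have hlen : L.length ≤ G := by
    have := hL.2.2
    simpa using this
  have h4 : 4 ≤ 2 ^ t := by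
    calc 4 = 2 ^ 2 := rfl
      _ ≤ 2 ^ t := Nat.pow_le_pow_right (by norm_num) ht
  have h5 : 2 ^ (t + 1) = 2 ^ t + 2 ^ t := by rw [pow_succ]; ring
  obtain ⟨Q, hQ, hA⟩ := slp_circ (2 ^ (t + 1) + 5 * (B * m)) (by omega)
    (pa ⟨len N, t, B, m, 0, N / (2 * len N), fun _ => (0, 0), 0⟩) (fun l => by
      have := pa_lt h0 l
      rw [hF] at this
      exact this) hL.1
  obtain ⟨o, ho, hv⟩ := hA g hav
  have hc : (⟨len N, t, B, m, L.length, N / (2 * len N), Q, o⟩ : Prm).Ok := by
    refine ⟨ht, htl, hB, hm, ?_, hgates, fun i hi => ?_, ?_⟩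
    · rw [hF]
      simp only
      omega
    · rw [hF]
      exact hQ i hi
    · rw [hF]
      exact ho
  refine ⟨word N (⟨len N, t, B, m, L.length, N / (2 * len N), Q, o⟩ : Prm).P, fun X a => ?_⟩
  have e1 : List.ofFn (wd (pos h0 rfl rfl)
      (word N (⟨len N, t, B, m, L.length, N / (2 * len N), Q, o⟩ : Prm).P) X) = yX hc rfl rfl X := rfl
  rw [e1, out_yX]
  refine hv _ _ (vl_one hc rfl rfl X a) (vl_two hc rfl rfl X a) (fun l => ?_) fun i hi => ?_
  · exact vl_pa hc rfl rfl X a l
  · have h := vl_slp hc rfl rfl X a (i := i) hi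
    rw [hF] at h
    exact h

end Pool.Agent.KCV
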