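import Pool.Agent.KCV.Bits
import Pool.Agent.KCV.Circ
import Pool.Agent.KH.Avg

/-! A circuit with blocks of data in the numbers of the wires. -/

namespace Pool.Agent.KCV

open Finset Pool.Agent.KE Pool.Agent.KH

/-- the parity of the first `t` digits -/
def par (t j : ℕ) : Bool := decide (∑ k ∈ range t, zb (j.testBit k) = 1)

/-- the parameters of the circuit -/
structure Prm where
  /-- the number of digits of a pointer -/
  l : ℕ
  /-- the number of digits of data in a data gate -/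
  t : ℕ
  /-- the number of rows of data gates -/
  B : ℕ
  /-- the number of variables -/
  m : ℕ
  /-- the number of gates of the straight line program -/
  G : ℕ
  /-- the number of gates -/
  M : ℕ
  /-- the pointers of the straight line program -/
  Q : ℕ → ℕ × ℕ
  /-- the output of the straight line program -/
  o : ℕ

namespace Prm

variable (c : Prm)

/-- the first gate behind the table -/
def A : ℕ := 2 ^ (c.t + 1)

/-- the first gate behind the data gates -/
def F : ℕ := c.A + 5 * (c.B * c.m)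

/-- the gate is a data gate -/
def isD (i : ℕ) : Prop := (c.A ≤ i ∧ i < c.F) ∧ (i - c.A) % 5 = 0

instance (i : ℕ) : Decidable (c.isD i) := by unfold isD; infer_instance

/-- the pointers of the five gates for a data gate -/
def five (q r : ℕ) : ℕ × ℕ :=
  if r = 0 then (2 ^ c.t, 1)
  else if r = 1 then (if q < c.m then 2 else c.A + 5 * (q - c.m) + 4, c.A + 5 * q)
  else if r = 2 then (if q < c.m then 2 else c.A + 5 * (q - c.m) + 4, c.A + 5 * q + 1)
  else if r = 3 then (c.A + 5 * q, c.A + 5 * q + 1)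
  else (c.A + 5 * q + 2, c.A + 5 * q + 3)

/-- the pointers without the data -/
def P (i : ℕ) : ℕ × ℕ :=
  if i = 0 then (2 ^ c.l - 1, 2 ^ c.l - 1)
  else if i = 1 then (0, 2 ^ c.l - 1)
  else if i < 2 ^ c.t then (1, 1)
  else if i < c.A then (if par c.t (i - 2 ^ c.t) then (1, 1) else (2, 2))
  else if i < c.F then c.five ((i - c.A) / 5) ((i - c.A) % 5)
  else if i < c.F + c.G then c.Q (i - c.F)
  else if i = c.F + c.G then (c.o, c.o)
  else if i + 1 = c.M then (c.F + c.G, c.F + c.G)
  else (1, 1)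

/-- the pointers with the data `D` -/
def PD (D : ℕ → ℕ → Bool) (i : ℕ) : ℕ × ℕ :=
  if c.isD i then (2 ^ c.t + dig c.t (D ((i - c.A) / 5)), 1) else c.P i

/-- the parameters are consistent -/
structure Ok : Prop where
  ht : 2 ≤ c.t
  hl : c.t < c.l
  hB : 1 ≤ c.B
  hm : 1 ≤ c.m
  hM : c.F + c.G + 2 ≤ c.M
  hMl : c.M < 2 ^ c.l - 1
  hQ : ∀ i < c.G, (c.Q i).1 < c.F + i ∧ (c.Q i).2 < c.F + i
  ho : c.o < c.F + c.G

end Prm

/-- the blocks as functions of numbers -/
def nX {a m : ℕ} (X : Fin a → Fin m → Bool) (b l : ℕ) : Bool :=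
  if h : b < a ∧ l < m then X ⟨b, h.1⟩ ⟨l, h.2⟩ else false

theorem nX_in {a m : ℕ} (X : Fin a → Fin m → Bool) {b l : ℕ} (hb : b < a) (hl : l < m) :
    nX X b l = X ⟨b, hb⟩ ⟨l, hl⟩ := by
  unfold nX
  rw [dif_pos ⟨hb, hl⟩]

/-- the data of the data gate `q` -/
def dat {a m : ℕ} (t : ℕ) (X : Fin a → Fin m → Bool) (q k : ℕ) : Bool := nX X (q / m * t + k) (q % m)

section
variable {c : Prm} (hc : c.Ok)
include hc

theorem Prm.Ok.four : 4 ≤ 2 ^ c.t := by
  calc 4 = 2 ^ 2 := rfl
    _ ≤ 2 ^ c.t := Nat.pow_le_pow_right (by norm_num) hc.ht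

theorem Prm.Ok.A_eq : c.A = 2 ^ c.t + 2 ^ c.t := by
  unfold Prm.A
  rw [pow_succ]
  ring

theorem Prm.Ok.AF : c.A ≤ c.F := by
  unfold Prm.F
  omega

/-- all pointers are numbers of gates, or the largest number -/
theorem Prm.Ok.P_lt (i : ℕ) : (c.P i).1 < 2 ^ c.l ∧ (c.P i).2 < 2 ^ c.l := by
  have h4 := hc.four
  have hA := hc.A_eq
  have hAF := hc.AF
  have hM := hc.hM
  have hMl := hc.hMl
  unfold Prm.P
  split_ifs with h1 h2 h3 h4' h5 h6 h7 h8 h9
  · exact ⟨by simp only; omega, by simp only; omega⟩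
  · exact ⟨by simp only; omega, by simp only; omega⟩
  · exact ⟨by simp only; omega, by simp only; omega⟩
  · exact ⟨by simp only; omega, by simp only; omega⟩
  · exact ⟨by simp only; omega, by simp only; omega⟩
  · obtain ⟨q, hq⟩ : ∃ q, q = (i - c.A) / 5 := ⟨_, rfl⟩
    have hq1 : c.A + 5 * q ≤ i := by omega
    rw [← hq]
    unfold Prm.five
    split_ifs <;> exact ⟨by simp only; omega, by simp only; omega⟩
  · have := hc.hQ (i - c.F) (by omega)
    exact ⟨by omega, by omega⟩
  · have := hc.ho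
    exact ⟨by simp only; omega, by simp only; omega⟩
  · exact ⟨by simp only; omega, by simp only; omega⟩
  · exact ⟨by simp only; omega, by simp only; omega⟩

end

/-! ### The blocks -/

theorem row_lt {B m b l : ℕ} (hb : b < B) (hl : l < m) : b * m + l < B * m := by
  calc b * m + l < b * m + m := by omega
    _ = (b + 1) * m := by ring
    _ ≤ B * m := Nat.mul_le_mul_right _ hb

theorem div_lt' {B t b : ℕ} (hb : b < B * t) : b / t < B := Nat.div_lt_of_lt_mul (by rwa [mul_comm])

/-- the position of the letter `l` of block `b` -/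
def pos {N : ℕ} {c : Prm} (hc : c.Ok) (hl : c.l = len N) (hM : c.M = N / (2 * len N))
    (b : Fin (c.B * c.t)) (l : Fin c.m) : Fin N :=
  ⟨2 * len N * (c.A + 5 * ((b : ℕ) / c.t * c.m + l)) + (b : ℕ) % c.t, by
    have h1 := row_lt (div_lt' b.2) l.2
    have h2 := hc.hM
    have h3 : c.F = c.A + 5 * (c.B * c.m) := rfl
    have h4 := hc.hl
    have h5 : (b : ℕ) % c.t < c.t := Nat.mod_lt _ (by have := hc.ht; omega)
    exact gate_lt (by omega) (by omega)⟩

theorem div_eq_of {L i r j s : ℕ} (hr : r < L) (hs : s < L) (h : L * i + r = L * j + s) :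
    i = j ∧ r = s := by
  have h1 : (L * i + r) / L = (L * j + s) / L := by rw [h]
  have h2 : (L * i + r) % L = (L * j + s) % L := by rw [h]
  rw [Nat.mul_add_div (by omega), Nat.mul_add_div (by omega), Nat.div_eq_of_lt hr, Nat.div_eq_of_lt hs] at h1
  rw [Nat.mul_add_mod, Nat.mul_add_mod, Nat.mod_eq_of_lt hr, Nat.mod_eq_of_lt hs] at h2
  exact ⟨by omega, h2⟩

section
variable {N : ℕ} {c : Prm} (hc : c.Ok) (hl : c.l = len N) (hM : c.M = N / (2 * len N))

theorem pos_inj {b b' : Fin (c.B * c.t)} {l l' : Fin c.m} (h : pos hc hl hM b l = pos hc hl hM b' l') :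
    b = b' ∧ l = l' := by
  have h1 := congrArg Fin.val h
  simp only [pos] at h1
  have ht : 0 < c.t := by have := hc.ht; omega
  have h2 := Nat.mod_lt (b : ℕ) ht
  have h3 := Nat.mod_lt (b' : ℕ) ht
  have h4 := hc.hl
  obtain ⟨h5, h6⟩ := div_eq_of (L := 2 * len N) (by omega) (by omega) h1
  have h7 : c.m * ((b : ℕ) / c.t) + l = c.m * ((b' : ℕ) / c.t) + l' := by
    rw [mul_comm c.m, mul_comm c.m]
    omega
  obtain ⟨h8, h9⟩ := div_eq_of l.2 l'.2 h7
  refine ⟨Fin.ext ?_, Fin.ext h9⟩
  rw [← Nat.div_add_mod (b : ℕ) c.t, ← Nat.div_add_mod (b' : ℕ) c.t, h8, h6]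

/-- the letters of the word with the blocks `X` -/
theorem wd_at (X : Fin (c.B * c.t) → Fin c.m → Bool) {i r : ℕ} (hi : i < N / (2 * len N))
    (hr : r < 2 * len N) :
    wd (pos hc hl hM) (word N c.P) X ⟨2 * len N * i + r, gate_lt hi hr⟩ =
      if c.isD i ∧ r < c.t then dat c.t X ((i - c.A) / 5) r else bitP (len N) (c.P i) r := by
  have ht : 0 < c.t := by have := hc.ht; omega
  have h4 := hc.hl
  have hF : c.F = c.A + 5 * (c.B * c.m) := rfl
  by_cases h : ∃ b l, pos hc hl hM b l = ⟨2 * len N * i + r, gate_lt hi hr⟩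
  · obtain ⟨b, l, hbl⟩ := h
    rw [← hbl, wd_pos (fun b b' l l' h => pos_inj hc hl hM h)]
    have h1 := congrArg Fin.val hbl
    simp only [pos] at h1
    have h2 := Nat.mod_lt (b : ℕ) ht
    obtain ⟨h5, h6⟩ := div_eq_of (L := 2 * len N) (by omega) hr h1
    have h7 := row_lt (div_lt' b.2) l.2
    have h8 : c.isD i := ⟨⟨by omega, by omega⟩, by omega⟩
    rw [if_pos ⟨h8, by omega⟩]
    have h9 : (i - c.A) / 5 = c.m * ((b : ℕ) / c.t) + l := by
      rw [mul_comm c.m]
      omega
    unfold dat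
    rw [h9, Nat.mul_add_div (by omega), Nat.div_eq_of_lt l.2, add_zero, Nat.mul_add_mod,
      Nat.mod_eq_of_lt l.2, ← h6]
    have h10 : (b : ℕ) / c.t * c.t + (b : ℕ) % c.t = b := by
      rw [mul_comm]
      exact Nat.div_add_mod _ _
    rw [h10, nX_in X b.2 l.2]
  · rw [wd_off _ _ (fun b l hb => h ⟨b, l, hb⟩), word_at hr]
    rw [if_neg]
    rintro ⟨⟨⟨h1, h2⟩, h3⟩, h5⟩
    have hm := hc.hm
    obtain ⟨q, hq⟩ : ∃ q, q = (i - c.A) / 5 := ⟨_, rfl⟩
    have hq1 : q < c.B * c.m := by omega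
    have hq2 : q / c.m < c.B := div_lt' hq1
    refine h ⟨⟨q / c.m * c.t + r, row_lt hq2 h5⟩, ⟨q % c.m, Nat.mod_lt _ hm⟩, Fin.ext ?_⟩
    simp only [pos]
    rw [mul_comm (q / c.m) c.t, Nat.mul_add_div ht, Nat.div_eq_of_lt h5, add_zero, Nat.mul_add_mod,
      Nat.mod_eq_of_lt h5, mul_comm (q / c.m) c.m, Nat.div_add_mod]
    congr 2
    omega

/-- the word with the blocks `X` -/
noncomputable def yX (X : Fin (c.B * c.t) → Fin c.m → Bool) : List Bool := List.ofFn (wd (pos hc hl hM) (word N c.P) X)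

theorem len_yX (X : Fin (c.B * c.t) → Fin c.m → Bool) : (yX hc hl hM X).length = N := by
  unfold yX
  exact List.length_ofFn

theorem ptr_fst (X : Fin (c.B * c.t) → Fin c.m → Bool) {i : ℕ} (hi : i < N / (2 * len N)) :
    ptr (yX hc hl hM X) (2 * len N * i) = (c.PD (dat c.t X) i).1 := by
  have h0 := len_pos N
  have h1 : ∀ k < len N, lt (yX hc hl hM X) (2 * len N * i + k) =
      if c.isD i ∧ k < c.t then dat c.t X ((i - c.A) / 5) k else (c.P i).1.testBit k := by
    intro k hk
    unfold yX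
    rw [lt_ofFn _ (gate_lt hi (by omega)), wd_at hc hl hM X hi (by omega)]
    unfold bitP
    rw [if_pos hk]
  rw [ptr_eq, len_yX, dig_congr h1]
  unfold Prm.PD
  have h4 := hc.hl
  by_cases h : c.isD i
  · rw [if_pos h]
    have h2 : (c.P i).1 = 2 ^ c.t := by
      obtain ⟨⟨h5, h6⟩, h7⟩ := h
      have := hc.four
      have := hc.A_eq
      unfold Prm.P Prm.five
      rw [if_neg (by omega), if_neg (by omega), if_neg (by omega), if_neg (by omega), if_pos (by omega),
        if_pos (by omega)]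
    rw [h2]
    have h3 := dig_data (t := c.t) (ℓ := len N) (by omega) (dat c.t X ((i - c.A) / 5))
    rw [← h3]
    refine dig_congr fun k _ => ?_
    by_cases hk : k < c.t
    · rw [if_pos ⟨h, hk⟩, if_pos hk]
    · rw [if_neg (fun h => hk h.2), if_neg hk]
  · rw [if_neg h]
    have h2 : ∀ k < len N, (if c.isD i ∧ k < c.t then dat c.t X ((i - c.A) / 5) k
        else (c.P i).1.testBit k) = (c.P i).1.testBit k := fun k _ => by
      rw [if_neg (fun h' => h h'.1)]
    rw [dig_congr h2, dig_testBit (by rw [← hl]; exact (hc.P_lt i).1)]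

theorem ptr_snd (X : Fin (c.B * c.t) → Fin c.m → Bool) {i : ℕ} (hi : i < N / (2 * len N)) :
    ptr (yX hc hl hM X) (2 * len N * i + len N) = (c.PD (dat c.t X) i).2 := by
  have h0 := len_pos N
  have h4 := hc.hl
  have h1 : ∀ k < len N, lt (yX hc hl hM X) (2 * len N * i + len N + k) = (c.P i).2.testBit k := by
    intro k hk
    unfold yX
    have h2 : 2 * len N * i + len N + k = 2 * len N * i + (len N + k) := by ring
    rw [h2, lt_ofFn _ (gate_lt hi (by omega)), wd_at hc hl hM X hi (by omega), if_neg (by omega)]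
    unfold bitP
    rw [if_neg (by omega), Nat.add_sub_cancel_left]
  rw [ptr_eq, len_yX, dig_congr h1, dig_testBit (by rw [← hl]; exact (hc.P_lt i).2)]
  unfold Prm.PD
  by_cases h : c.isD i
  · rw [if_pos h]
    obtain ⟨⟨h5, h6⟩, h7⟩ := h
    have := hc.four
    have := hc.A_eq
    unfold Prm.P Prm.five
    rw [if_neg (by omega), if_neg (by omega), if_neg (by omega), if_neg (by omega), if_pos (by omega),
      if_pos (by omega)]
  · rw [if_neg h]

end

end Pool.Agent.KCV
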